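import Pool.Agent.Lib.MP_ddf912_lc.AC.FSS

namespace Pool.Agent.Lib.MP_ddf912_lc.AC

open Finset

variable {E : Type} [Fintype E] [DecidableEq E]

def band (V s : E → Bool) : E → Bool := fun e => V e && s e

noncomputable def T (q : ℝ) (F : (E → Bool) → (E → Bool) → ℝ) : (E → Bool) → (E → Bool) → ℝ :=
  fun V x => E2 q fun s x' => F (band V s) (merge V x' x)

omit [Fintype E] [DecidableEq E] in
theorem merge_band (V s y x' x : E → Bool) :
    merge (band V s) y (merge V x' x) = merge V (merge s y x') x := by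
  funext e
  simp only [merge, band]
  cases V e <;> cases s e <;> simp

omit [Fintype E] [DecidableEq E] in
theorem res_res {β : Type} (f : (E → Bool) → β) (V x s x' : E → Bool) :
    res f (band V s) (merge V x' x) = res (res f V x) s x' := by
  funext y
  simp only [res, merge_band]

theorem T_iter_mono {q : ℝ} (h0 : 0 ≤ q) (h1 : q ≤ 1) (d : ℕ) :
    ∀ {F G : (E → Bool) → (E → Bool) → ℝ}, (∀ V x, F V x ≤ G V x) →
      ∀ V x, (T q)^[d] F V x ≤ (T q)^[d] G V x := by
  induction d with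
  | zero => intro F G h; exact h
  | succ d ih =>
    intro F G h
    simp only [Function.iterate_succ, Function.comp]
    exact ih fun V x => E2_mono h0 h1 fun s x' => h _ _

theorem T_iter_affine (q a c : ℝ) (d : ℕ) :
    ∀ F : (E → Bool) → (E → Bool) → ℝ,
      (T q)^[d] (fun V x => a * F V x + c) = fun V x => a * (T q)^[d] F V x + c := by
  induction d with
  | zero => intro F; rfl
  | succ d ih =>
    intro F
    simp only [Function.iterate_succ, Function.comp]
    rw [← ih]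
    congr 1
    funext V x
    simp only [T, E2_add, E2_const]
    unfold E2
    simp_rw [Ex_mul_left]

theorem T_iter_sum {ι : Type*} (q : ℝ) (A : Finset ι) (d : ℕ) :
    ∀ F : ι → (E → Bool) → (E → Bool) → ℝ,
      (T q)^[d] (fun V x => ∑ i ∈ A, F i V x) = fun V x => ∑ i ∈ A, (T q)^[d] (F i) V x := by
  induction d with
  | zero => intro F; rfl
  | succ d ih =>
    intro F
    simp only [Function.iterate_succ, Function.comp]
    rw [← ih]
    congr 1
    funext V x
    simp only [T, E2_sum]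

def CD (j : ℕ) : ℕ → ℕ
  | 0 => 1
  | d + 1 => cJ j (CD j d)

theorem le_cJ {j : ℕ} (hj : 1 ≤ j) (r : ℕ) : r ≤ cJ j r := by
  induction r with
  | zero => simp
  | succ r ih =>
    simp only [cJ]
    have : 1 ≤ 2 ^ j := Nat.one_le_two_pow
    nlinarith

theorem CD_mono {j : ℕ} (hj : 1 ≤ j) : Monotone (CD j) :=
  monotone_nat_of_le_succ fun _ => le_cJ hj _

theorem one_le_CD {j : ℕ} (hj : 1 ≤ j) (d : ℕ) : 1 ≤ CD j d := CD_mono hj (Nat.zero_le d)

theorem j_le_CD {j : ℕ} (hj : 1 ≤ j) (d : ℕ) : j ≤ CD j (d + 1) := by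
  have := one_le_CD hj d
  simp only [CD]
  obtain ⟨r, hr⟩ : ∃ r, CD j d = r + 1 := ⟨CD j d - 1, by omega⟩
  rw [hr]; simp only [cJ]; omega

section net

variable {Γ : Type} [Fintype Γ]

def orF (F : Γ → (E → Bool) → Prop) (A : Set (Γ × Bool)) : (E → Bool) → Prop :=
  fun x => ∃ c, c ∈ A ∧ (F c.1 x ↔ c.2 = true)

def tupF (F : Γ → (E → Bool) → Prop) (A : Finset Γ) : (E → Bool) → Γ → Prop :=
  fun x c => c ∈ A ∧ F c x

def NetOK (F : Γ → (E → Bool) → Prop) (lv : Γ → ℕ) (m0 : ℕ) : Prop :=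
  ∀ γ, Jun 1 (F γ) ∨
    (∃ A : Set (Γ × Bool), (∀ c ∈ A, lv c.1 < lv γ) ∧
      ∀ x y, orF F A x = orF F A y → F γ x = F γ y) ∨
    (∃ A : Finset Γ, A.card ≤ m0 ∧ (∀ c ∈ A, lv c < lv γ) ∧
      ∀ x y, tupF F A x = tupF F A y → F γ x = F γ y)

def Bad (F : Γ → (E → Bool) → Prop) (lv : Γ → ℕ) (j d : ℕ) (V x : E → Bool) : Prop :=
  ∃ γ, lv γ ≤ d ∧ ¬ Jun (CD j d) (res (F γ) V x)

structure Par (q ε : ℝ) (j D M m0 : ℕ) : Prop where
  q0 : 0 ≤ q
  q1 : q ≤ 1 / 2
  j1 : 1 ≤ j
  e1 : (1 - (1 / 4 : ℝ) ^ CD j D) ^ M ≤ ε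
  e2 : ((CD j D * M : ℕ) * q) ^ j ≤ ε
  e3 : ((m0 * CD j D : ℕ) * q) ^ j ≤ ε

variable {F : Γ → (E → Bool) → Prop} {lv : Γ → ℕ} {q ε : ℝ} {j D M m0 : ℕ}

omit [Fintype E] [DecidableEq E] [Fintype Γ] in
theorem Par.e0 (h : Par q ε j D M m0) : 0 ≤ ε :=
  le_trans (pow_nonneg (mul_nonneg (Nat.cast_nonneg _) h.q0) _) h.e2

theorem orStep (h : Par q ε j D M m0) {d : ℕ} (hd : d ≤ D) {V x : E → Bool}
    (hb : ¬ Bad F lv j d V x) (A : Set (Γ × Bool)) (hA : ∀ c ∈ A, lv c.1 ≤ d) :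
    T q (fun V x => ind (¬ Jun (CD j (d + 1)) (res (orF F A) V x))) V x ≤ CD j (D + 1) * ε := by
  unfold T
  simp_rw [res_res]
  have := fss h.q0 h.q1 h.j1 h.e1 h.e2 (CD j d) (CD_mono h.j1 hd)
    (fun (c : Γ × Bool) y => c ∈ A ∧ (F c.1 (merge V y x) ↔ c.2 = true)) fun c => by
      by_cases hc : c ∈ A
      · have : Jun (CD j d) (res (F c.1) V x) := by
          by_contra hn; exact hb ⟨c.1, hA c hc, hn⟩
        exact this.comp fun y z hyz => by
          simp only [res] at hyz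
          rw [hyz]
      · exact Jun.of_const fun y z => by simp [hc]
  refine this.trans (mul_le_mul_of_nonneg_right ?_ h.e0)
  exact_mod_cast CD_mono h.j1 (show d + 1 ≤ D + 1 by omega)

omit [Fintype E] [Fintype Γ] in
theorem tupJun {C : ℕ} (A : Finset Γ) (hc : A.card ≤ m0) (hA : ∀ c ∈ A, Jun C (F c)) :
    Jun (m0 * C) (tupF F A) := by
  choose! J hJ1 hJ2 using hA
  refine ⟨A.biUnion J, (card_biUnion_le_card_mul _ _ _ hJ1).trans (Nat.mul_le_mul_right _ hc),
    fun y z hyz => ?_⟩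
  funext c
  by_cases hc : c ∈ A
  · have : F c y = F c z :=
      hJ2 c hc fun e he => hyz e (mem_coe.mpr (mem_biUnion.mpr ⟨c, hc, he⟩))
    simp only [tupF, this]
  · simp only [tupF, hc, false_and]

omit [Fintype Γ] in
theorem tupStep (h : Par q ε j D M m0) {d : ℕ} (hd : d ≤ D) {V x : E → Bool}
    (hb : ¬ Bad F lv j d V x) (A : Finset Γ) (hc : A.card ≤ m0) (hA : ∀ c ∈ A, lv c ≤ d) :
    T q (fun V x => ind (¬ Jun (CD j (d + 1)) (res (tupF F A) V x))) V x ≤ CD j (D + 1) * ε := by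
  have hq1 : q ≤ 1 := by linarith [h.q1]
  have hJ : Jun (m0 * CD j D) (res (tupF F A) V x) :=
    tupJun (F := fun c => res (F c) V x) A hc fun c hc => by
      refine Jun.mono ?_ (CD_mono h.j1 hd)
      by_contra hn; exact hb ⟨c, hA c hc, hn⟩
  have h1 := (fnStep h.q0 hq1 j _ _ hJ).trans h.e3
  have h2 : ε ≤ CD j (D + 1) * ε :=
    le_mul_of_one_le_left h.e0 (by exact_mod_cast one_le_CD h.j1 _)
  refine le_trans ?_ (h1.trans h2)
  unfold T
  refine E2_mono h.q0 hq1 fun s x' => ind_mono fun hn hj => hn ?_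
  rw [res_res]
  exact hj.mono (j_le_CD h.j1 d)

theorem T_le_one {q : ℝ} (h0 : 0 ≤ q) (h1 : q ≤ 1) (P : (E → Bool) → (E → Bool) → Prop)
    (V x : E → Bool) : T q (fun V x => ind (P V x)) V x ≤ 1 :=
  (E2_mono h0 h1 fun _ _ => ind_le_one _).trans (E2_const q 1).le

theorem badStep (h : Par q ε j D M m0) (hN : NetOK F lv m0) {d : ℕ} (hd : d ≤ D)
    (V x : E → Bool) : T q (fun V x => ind (Bad F lv j (d + 1) V x)) V x ≤
      1 * ind (Bad F lv j d V x) + Fintype.card Γ * (CD j (D + 1) * ε) := by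
  have hq1 : q ≤ 1 := by linarith [h.q1]
  have hκ : 0 ≤ CD j (D + 1) * ε := mul_nonneg (Nat.cast_nonneg _) h.e0
  by_cases hb : Bad F lv j d V x
  · rw [ind_pos hb]
    refine (T_le_one h.q0 hq1 _ V x).trans ?_
    have : 0 ≤ Fintype.card Γ * (CD j (D + 1) * ε) := mul_nonneg (Nat.cast_nonneg _) hκ
    linarith
  rw [ind_neg hb, mul_zero, zero_add]
  calc _ ≤ E2 q (fun s x' => ∑ γ, ind (lv γ ≤ d + 1 ∧
        ¬ Jun (CD j (d + 1)) (res (F γ) (band V s) (merge V x' x)))) :=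
        E2_mono h.q0 hq1 fun s x' => ind_le_sum _ _ fun ⟨γ, hγ⟩ => ⟨γ, mem_univ _, hγ⟩
    _ ≤ ∑ _γ : Γ, CD j (D + 1) * ε := by
        rw [E2_sum]
        refine sum_le_sum fun γ _ => ?_
        rcases hN γ with h1 | ⟨A, hA, hF⟩ | ⟨A, hc, hA, hF⟩
        · refine (E2_mono h.q0 hq1 fun s x' => ?_).trans ((E2_const q 0).le.trans hκ)
          rw [ind_neg]
          exact fun hn => hn.2 ((h1.res _ _).mono (one_le_CD h.j1 _))
        · by_cases hl : lv γ ≤ d + 1
          · refine le_trans ?_ (orStep h hd hb A fun c hc => by have := hA c hc; omega)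
            exact E2_mono h.q0 hq1 fun s x' => ind_mono fun hn hj =>
              hn.2 (hj.comp fun y z => hF _ _)
          · refine (E2_mono h.q0 hq1 fun s x' => ?_).trans ((E2_const q 0).le.trans hκ)
            rw [ind_neg]
            exact fun hn => hl hn.1
        · by_cases hl : lv γ ≤ d + 1
          · refine le_trans ?_ (tupStep h hd hb A hc fun c hc => by have := hA c hc; omega)
            exact E2_mono h.q0 hq1 fun s x' => ind_mono fun hn hj =>
              hn.2 (hj.comp fun y z => hF _ _)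
          · refine (E2_mono h.q0 hq1 fun s x' => ?_).trans ((E2_const q 0).le.trans hκ)
            rw [ind_neg]
            exact fun hn => hl hn.1
    _ = _ := by rw [sum_const, card_univ, nsmul_eq_mul]

omit [Fintype E] [DecidableEq E] [Fintype Γ] in
theorem not_bad_zero (hN : NetOK F lv m0) (V x : E → Bool) : ¬ Bad F lv j 0 V x := by
  rintro ⟨γ, hγ, hn⟩
  apply hn
  rcases hN γ with h1 | ⟨A, hA, hF⟩ | ⟨A, _, hA, hF⟩
  · exact h1.res _ _
  · refine Jun.of_const fun y z => hF _ _ ?_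
    have : ∀ c, c ∉ A := fun c hc => by have := hA c hc; omega
    simp [orF, this]
  · refine Jun.of_const fun y z => hF _ _ ?_
    have : ∀ c, c ∉ A := fun c hc => by have := hA c hc; omega
    funext c
    simp [tupF, this]

theorem bad_iter (h : Par q ε j D M m0) (hN : NetOK F lv m0) : ∀ d ≤ D, ∀ V x,
    (T q)^[d] (fun V x => ind (Bad F lv j d V x)) V x ≤
      d * (Fintype.card Γ * (CD j (D + 1) * ε)) := by
  have hq1 : q ≤ 1 := by linarith [h.q1]
  intro d
  induction d with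
  | zero => intro _ V x; simp [ind_neg (not_bad_zero hN V x)]
  | succ d ih =>
    intro hd V x
    rw [Function.iterate_succ, Function.comp]
    refine (T_iter_mono h.q0 hq1 d (badStep h hN (by omega)) V x).trans ?_
    rw [T_iter_affine]
    have := ih (by omega) V x
    push_cast
    linarith

def Good {β : Type} (q δ : ℝ) (D C : ℕ) (f : (E → Bool) → β) : Prop :=
  ∀ V x, (T q)^[D] (fun V x => ind (¬ Jun C (res f V x))) V x ≤ δ

theorem good_of (h : Par q ε j D M m0) (hN : NetOK F lv m0) {β : Type} (f : (E → Bool) → β)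
    (hf : ∀ V x, ¬ Bad F lv j D V x →
      T q (fun V x => ind (¬ Jun (CD j (D + 1)) (res f V x))) V x ≤ CD j (D + 1) * ε) :
    Good q ((D * Fintype.card Γ + 1) * (CD j (D + 1) * ε)) (D + 1) (CD j (D + 1)) f := by
  have hq1 : q ≤ 1 := by linarith [h.q1]
  have hκ : 0 ≤ CD j (D + 1) * ε := mul_nonneg (Nat.cast_nonneg _) h.e0
  intro V x
  rw [Function.iterate_succ, Function.comp]
  have : ∀ V x, T q (fun V x => ind (¬ Jun (CD j (D + 1)) (res f V x))) V x ≤
      1 * ind (Bad F lv j D V x) + CD j (D + 1) * ε := by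
    intro V x
    by_cases hb : Bad F lv j D V x
    · rw [ind_pos hb]
      refine (T_le_one h.q0 hq1 _ V x).trans ?_
      linarith
    · rw [ind_neg hb, mul_zero, zero_add]; exact hf V x hb
  refine (T_iter_mono h.q0 hq1 D this V x).trans ?_
  rw [T_iter_affine]
  have := bad_iter h hN D le_rfl V x
  linarith

theorem good_or (h : Par q ε j D M m0) (hN : NetOK F lv m0) (hl : ∀ γ, lv γ ≤ D)
    (A : Set (Γ × Bool)) :
    Good q ((D * Fintype.card Γ + 1) * (CD j (D + 1) * ε)) (D + 1) (CD j (D + 1)) (orF F A) :=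
  good_of h hN _ fun _ _ hb => orStep h le_rfl hb A fun _ _ => hl _

theorem good_tup (h : Par q ε j D M m0) (hN : NetOK F lv m0) (hl : ∀ γ, lv γ ≤ D)
    (A : Finset Γ) (hA : A.card ≤ m0) :
    Good q ((D * Fintype.card Γ + 1) * (CD j (D + 1) * ε)) (D + 1) (CD j (D + 1)) (tupF F A) :=
  good_of h hN _ fun _ _ hb => tupStep h le_rfl hb A hA fun _ _ => hl _

end net

end Pool.Agent.Lib.MP_ddf912_lc.AC
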