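import Pool.Agent.Lib.MP_ddf912_lc.AC.Sens

namespace Pool.Agent.Lib.MP_ddf912_lc.AC

open Finset

variable {V : Type} [Fintype V] [DecidableEq V] {k n : ℕ} {pt : Fin k → Fin n → V}

theorem Gx_nonneg {E : Type} [Fintype E] [DecidableEq E] {p : ℝ} (hp0 : 0 ≤ p) (hp1 : p ≤ 1)
    (P : (E → Bool) → Prop) : 0 ≤ Gx p P :=
  Ex_nonneg hp0 hp1 fun _ => Ex_nonneg (by norm_num) (by norm_num) fun _ => ind_nonneg _

theorem Gx_le_sum {E ι : Type} [Fintype E] [DecidableEq E] {p : ℝ} (hp0 : 0 ≤ p) (hp1 : p ≤ 1)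
    {P : (E → Bool) → Prop} (A : Finset ι) (Q : ι → (E → Bool) → Prop)
    (h : ∀ x, P x → ∃ i ∈ A, Q i x) : Gx p P ≤ ∑ i ∈ A, Gx p (Q i) := by
  unfold Gx
  rw [← E2_sum]
  exact E2_mono hp0 hp1 fun L y => ind_le_sum _ _ (h _)

theorem Gx_le_add {E : Type} [Fintype E] [DecidableEq E] {p : ℝ} (hp0 : 0 ≤ p) (hp1 : p ≤ 1)
    {P Q R : (E → Bool) → Prop} (h : ∀ x, P x → Q x ∨ R x) : Gx p P ≤ Gx p Q + Gx p R := by
  unfold Gx
  rw [← E2_add]
  exact E2_mono hp0 hp1 fun L y => ind_le_add (h _)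

theorem Gx_true {E : Type} [Fintype E] [DecidableEq E] (p : ℝ) :
    Gx p (fun _ : E → Bool => True) = 1 := by
  unfold Gx
  simp only [ind_pos True.intro, E2_const]

theorem med_bound (hpt : ∀ i i' b b', pt i b = pt i' b' → i = i' ∧ b = b') (hn : 0 < n)
    {β : Type} {p q δ η : ℝ} {D C s : ℕ} (hp0 : 0 < p) (hp1 : p ≤ 1) (hq0 : 0 < q) (hq1 : q ≤ 1)
    (hη0 : 0 ≤ η)
    (hη : ∀ b, s < b → b ≤ 2 * s → ((2 * C : ℕ) / n : ℝ) ^ b + δ ≤ (p * q ^ D) ^ (b * b) * η)
    {f : (Sym2 V → Bool) → β} (hf : Good q δ D C f) :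
    ∑ a, Gx p (fun x => Med pt s f x a) ≤ 2 ^ k * (n ^ k * η) := by
  classical
  have hn' : (0 : ℝ) < n := by exact_mod_cast hn
  calc _ ≤ ∑ a, ∑ R ∈ univ.filter (fun R : Finset (Fin k) => s < R.card ∧ R.card ≤ 2 * s),
        Gx p (fun x => Sens pt f x a R) :=
        sum_le_sum fun a _ => Gx_le_sum hp0.le hp1 _ _ fun x ⟨R, h1, h2⟩ =>
          ⟨R, mem_filter.mpr ⟨mem_univ _, h1⟩, h2⟩
    _ ≤ ∑ _R ∈ univ.filter (fun R : Finset (Fin k) => s < R.card ∧ R.card ≤ 2 * s), n ^ k * η := by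
        rw [sum_comm]
        refine sum_le_sum fun R hR => ?_
        obtain ⟨h1, h2⟩ := (mem_filter.mp hR).2
        have h3 := key_bound hpt hn hp0.le hp1 hq0.le hq1 hf R
        have h4 := mul_le_mul_of_nonneg_left (hη _ h1 h2) (pow_nonneg hn'.le k)
        have h5 : 0 < (p * q ^ D) ^ (R.card * R.card) := by positivity
        refine le_of_mul_le_mul_left (h3.trans (h4.trans (le_of_eq ?_))) h5
        ring
    _ ≤ _ := by
        rw [sum_const, nsmul_eq_mul]
        refine mul_le_mul_of_nonneg_right ?_ (by positivity)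
        have : (univ.filter (fun R : Finset (Fin k) => s < R.card ∧ R.card ≤ 2 * s)).card ≤ 2 ^ k :=
          (card_filter_le _ _).trans (by simp)
        exact_mod_cast this

omit [Fintype V] in
theorem small_chain {β : Type} {s g : ℕ} {x : Sym2 V → Bool} {a : Fin k → Fin n}
    (P : ℕ → (Sym2 V → Bool) → β) (h0 : ∀ y z, P 0 y = P 0 z)
    (hs : ∀ i < g, ∃ f2 : (Sym2 V → Bool) → Prop, Small pt s f2 x a ∧
      ∀ y z, P i y = P i z → f2 y = f2 z → P (i + 1) y = P (i + 1) z)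
    (hm : ∀ i < g, ¬ Med pt s (P (i + 1)) x a) : ∀ i ≤ g, Small pt s (P i) x a := by
  intro i
  induction i with
  | zero => exact fun _ => ⟨∅, by simp, fun I => h0 _ _⟩
  | succ i ih =>
    intro hi
    obtain ⟨f2, h1, h2⟩ := hs i hi
    exact small_step (ih (by omega)) h1 h2 (hm i hi)

omit [Fintype V] in
theorem Small.comp {β γ : Type} {s : ℕ} {x : Sym2 V → Bool} {a : Fin k → Fin n}
    {f : (Sym2 V → Bool) → β} {g : (Sym2 V → Bool) → γ} (h : Small pt s f x a)
    (hg : ∀ y z, f y = f z → g y = g z) : Small pt s g x a := by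
  obtain ⟨J, h1, h2⟩ := h
  exact ⟨J, h1, fun I => hg _ _ (h2 I)⟩

theorem net_small (hpt : ∀ i i' b b', pt i b = pt i' b' → i = i' ∧ b = b') {s m0 : ℕ} (hs : 2 ≤ s)
    {Γ : Type} [Fintype Γ] {F : Γ → (Sym2 V → Bool) → Prop} {lv : Γ → ℕ} (hN : NetOK F lv m0) :
    ∃ (Ao : Γ × Fin (Fintype.card Γ) → Set (Γ × Bool)) (At : Γ × Fin (Fintype.card Γ) → Finset Γ),
      (∀ u, (At u).card ≤ m0) ∧ ∀ x a, (∀ u, ¬ Med pt s (orF F (Ao u)) x a) →
        (∀ u, ¬ Med pt s (tupF F (At u)) x a) → ∀ γ, Small pt s (F γ) x a := by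
  classical
  have hN' : ∀ γ, ∃ (A : Set (Γ × Bool)) (B : Finset Γ), B.card ≤ m0 ∧ (∀ c ∈ A, lv c.1 < lv γ) ∧
      (∀ c ∈ B, lv c < lv γ) ∧ (Jun 1 (F γ) ∨ (∀ x y, orF F A x = orF F A y → F γ x = F γ y) ∨
        ∀ x y, tupF F B x = tupF F B y → F γ x = F γ y) := by
    intro γ
    rcases hN γ with h | ⟨A, h1, h2⟩ | ⟨B, h1, h2, h3⟩
    · exact ⟨∅, ∅, by simp, by simp, by simp, Or.inl h⟩
    · exact ⟨A, ∅, by simp, h1, by simp, Or.inr (Or.inl h2)⟩
    · exact ⟨∅, B, h1, by simp, h2, Or.inr (Or.inr h3)⟩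
  choose A B hB hlA hlB hF using hN'
  let idx := Fintype.equivFin Γ
  refine ⟨fun u => {c | c ∈ A u.1 ∧ (idx c.1).val < u.2.val + 1},
    fun u => (B u.1).filter fun c => (idx c).val < u.2.val + 1,
    fun u => (card_filter_le _ _).trans (hB _), fun x a ho ht γ => ?_⟩
  induction' hγ : lv γ using Nat.strong_induction_on with l ih generalizing γ
  have htriv : Small pt s (fun _ => True) x a := ⟨∅, by simp, fun _ => rfl⟩
  rcases hF γ with h | h | h
  · exact small_of_jun hpt hs h x a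
  · have := small_chain (pt := pt) (s := s) (g := Fintype.card Γ) (x := x) (a := a)
      (fun i => orF F {c | c ∈ A γ ∧ (idx c.1).val < i}) (fun y z => by simp [orF])
      (fun i hi => ?_) (fun i hi => ho (γ, ⟨i, hi⟩)) _ le_rfl
    · refine this.comp fun y z hyz => h y z ?_
      simpa [orF] using hyz
    · have hsplit : ∀ y, orF F {c | c ∈ A γ ∧ (idx c.1).val < i + 1} y ↔
          orF F {c | c ∈ A γ ∧ (idx c.1).val < i} y ∨
            ∃ b, (idx.symm ⟨i, hi⟩, b) ∈ A γ ∧ (F (idx.symm ⟨i, hi⟩) y ↔ b = true) := by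
        intro y
        constructor
        · rintro ⟨c, ⟨h1, h2⟩, h3⟩
          rcases Nat.lt_succ_iff_lt_or_eq.mp h2 with h2 | h2
          · exact Or.inl ⟨c, ⟨h1, h2⟩, h3⟩
          · have : idx.symm ⟨i, hi⟩ = c.1 := by
              rw [Equiv.symm_apply_eq]; exact Fin.ext h2.symm
            rw [this]
            exact Or.inr ⟨c.2, h1, h3⟩
        · rintro (⟨c, ⟨h1, h2⟩, h3⟩ | ⟨b, h1, h2⟩)
          · exact ⟨c, ⟨h1, by omega⟩, h3⟩
          · exact ⟨_, ⟨h1, by simp⟩, h2⟩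
      by_cases hc : ∃ b, (idx.symm ⟨i, hi⟩, b) ∈ A γ
      · obtain ⟨b, hb⟩ := hc
        refine ⟨F (idx.symm ⟨i, hi⟩), ih _ (hγ ▸ hlA γ _ hb) _ rfl, fun y z h1 h2 => ?_⟩
        rw [propext (hsplit y), propext (hsplit z), h1, h2]
      · refine ⟨_, htriv, fun y z h1 _ => ?_⟩
        rw [propext (hsplit y), propext (hsplit z), h1]
        push Not at hc
        simp [hc]
  · have := small_chain (pt := pt) (s := s) (g := Fintype.card Γ) (x := x) (a := a)
      (fun i => tupF F ((B γ).filter fun c => (idx c).val < i))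
      (fun y z => by funext c; simp [tupF])
      (fun i hi => ?_) (fun i hi => ht (γ, ⟨i, hi⟩)) _ le_rfl
    · refine this.comp fun y z hyz => h y z ?_
      simpa using hyz
    · have hsplit : ∀ y c, tupF F ((B γ).filter fun c => (idx c).val < i + 1) y c ↔
          tupF F ((B γ).filter fun c => (idx c).val < i) y c ∨
            (c = idx.symm ⟨i, hi⟩ ∧ idx.symm ⟨i, hi⟩ ∈ B γ ∧ F (idx.symm ⟨i, hi⟩) y) := by
        intro y c
        simp only [tupF, mem_filter]
        constructor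
        · rintro ⟨⟨h1, h2⟩, h3⟩
          rcases Nat.lt_succ_iff_lt_or_eq.mp h2 with h2 | h2
          · exact Or.inl ⟨⟨h1, h2⟩, h3⟩
          · have : idx.symm ⟨i, hi⟩ = c := by
              rw [Equiv.symm_apply_eq]; exact Fin.ext h2.symm
            rw [this]
            exact Or.inr ⟨rfl, h1, h3⟩
        · rintro (⟨⟨h1, h2⟩, h3⟩ | ⟨rfl, h1, h2⟩)
          · exact ⟨⟨h1, by omega⟩, h3⟩
          · exact ⟨⟨h1, by simp⟩, h2⟩
      by_cases hc : idx.symm ⟨i, hi⟩ ∈ B γ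
      · refine ⟨F (idx.symm ⟨i, hi⟩), ih _ (hγ ▸ hlB γ _ hc) _ rfl, fun y z h1 h2 => ?_⟩
        funext c
        rw [propext (hsplit y c), propext (hsplit z c), h1, h2]
      · refine ⟨_, htriv, fun y z h1 _ => ?_⟩
        funext c
        rw [propext (hsplit y c), propext (hsplit z c), h1]
        simp [hc]

def HasClq (k : ℕ) (x : Sym2 V → Bool) : Prop :=
  ∃ Q : Finset V, Q.card = k ∧ ∀ u ∈ Q, ∀ v ∈ Q, u ≠ v → x s(u, v) = true

theorem clq_bound {p : ℝ} (hp0 : 0 ≤ p) (hp1 : p ≤ 1) (a : Fin k → Fin n) (J : Finset (Fin k))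
    {c0 : ℕ} (hc : c0 + J.card * J.card ≤ k.choose 2) :
    Gx p (fun x => HasClq k (plant pt x a J)) ≤ Fintype.card V ^ k * p ^ c0 := by
  calc _ ≤ ∑ Q ∈ powersetCard k (univ : Finset V), Gx p (fun x =>
        ∀ e ∈ (Q.offDiag.image fun z => s(z.1, z.2)) \ Kq pt a J, x e = true) := by
        refine Gx_le_sum hp0 hp1 _ _ fun x ⟨Q, h1, h2⟩ =>
          ⟨Q, mem_powersetCard.mpr ⟨subset_univ _, h1⟩, fun e he => ?_⟩
        obtain ⟨he1, he2⟩ := mem_sdiff.mp he
        obtain ⟨z, hz, rfl⟩ := mem_image.mp he1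
        obtain ⟨z1, z2, z3⟩ := mem_offDiag.mp hz
        simpa [plant, he2] using h2 _ z1 _ z2 z3
    _ ≤ ∑ _Q ∈ powersetCard k (univ : Finset V), p ^ c0 := by
        refine sum_le_sum fun Q hQ => ?_
        have h1 : (Q.offDiag.image fun z => s(z.1, z.2)).card = k.choose 2 := by
          rw [← (mem_powersetCard.mp hQ).2]
          exact Sym2.card_image_offDiag Q
        have h2 := le_card_sdiff (Kq pt a J) (Q.offDiag.image fun z => s(z.1, z.2))
        have h3 := card_Kq (pt := pt) a J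
        refine le_trans ?_ (pow_le_pow_of_le_one hp0 hp1
          (show c0 ≤ ((Q.offDiag.image fun z => s(z.1, z.2)) \ Kq pt a J).card by omega))
        rw [← Ex_all]
        refine Ex_mono hp0 hp1 fun L => Ex_le (by norm_num) (by norm_num) fun y =>
          ind_mono fun h e he => ?_
        have := h e he
        by_contra hL
        simp [merge, hL] at this
    _ ≤ _ := by
        rw [sum_const, card_powersetCard, card_univ, nsmul_eq_mul]
        refine mul_le_mul_of_nonneg_right ?_ (pow_nonneg hp0 _)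
        exact_mod_cast Nat.choose_le_pow _ _

omit [Fintype V] in
theorem clq_plant (hpt : ∀ i i' b b', pt i b = pt i' b' → i = i' ∧ b = b') (x : Sym2 V → Bool)
    (a : Fin k → Fin n) : HasClq k (plant pt x a univ) := by
  refine ⟨univ.image fun i => pt i (a i), ?_, fun u hu v hv _ => ?_⟩
  · rw [card_image_of_injective _ fun i i' h => (hpt _ _ _ _ h).1]; simp
  · have : s(u, v) ∈ Kq pt a univ := by
      unfold Kq
      exact mk_mem_sym2_iff.mpr ⟨hu, hv⟩
    simp [plant, this]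

theorem core (hpt : ∀ i i' b b', pt i b = pt i' b' → i = i' ∧ b = b') (hn : 0 < n)
    {p q ε η : ℝ} {j D M m0 s c0 : ℕ} (hs : 2 ≤ s) (hp0 : 0 < p) (hp1 : p ≤ 1) (hq0 : 0 < q)
    (hpar : Par q ε j D M m0) {Γ : Type} [Fintype Γ] {F : Γ → (Sym2 V → Bool) → Prop}
    {lv : Γ → ℕ} (hN : NetOK F lv m0) (hl : ∀ γ, lv γ ≤ D) (hη0 : 0 ≤ η)
    (hη : ∀ b, s < b → b ≤ 2 * s → ((2 * CD j (D + 1) : ℕ) / n : ℝ) ^ b +
      (D * Fintype.card Γ + 1) * (CD j (D + 1) * ε) ≤ (p * q ^ (D + 1)) ^ (b * b) * η)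
    (hc : c0 + s * s ≤ k.choose 2) (out : Γ) (hout : ∀ x, F out x ↔ HasClq k x) :
    1 ≤ 2 ^ k * (2 * Fintype.card Γ ^ 2 * η + Fintype.card V ^ k * p ^ c0) := by
  classical
  have hn' : (0 : ℝ) < n := by exact_mod_cast hn
  have hq1 : q ≤ 1 := by linarith [hpar.q1]
  obtain ⟨Ao, At, hAt, hsm⟩ := net_small hpt hs hN
  have h1 : ∀ a, Gx p (fun _ : Sym2 V → Bool => True) ≤
      (∑ u, Gx p (fun x => Med pt s (orF F (Ao u)) x a) +
        ∑ u, Gx p (fun x => Med pt s (tupF F (At u)) x a)) +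
        2 ^ k * (Fintype.card V ^ k * p ^ c0) := by
    intro a
    refine (Gx_le_add hp0.le hp1 (Q := fun x => (∃ u, Med pt s (orF F (Ao u)) x a) ∨
      ∃ u, Med pt s (tupF F (At u)) x a)
      (R := fun x => ∃ J : Finset (Fin k), J.card ≤ s ∧ HasClq k (plant pt x a J))
      fun x _ => ?_).trans (add_le_add ?_ ?_)
    · by_contra hcon
      push Not at hcon
      obtain ⟨J, hJ, h⟩ := hsm x a hcon.1.1 hcon.1.2 out
      refine hcon.2 J hJ ((hout _).mp ?_)
      have := h univ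
      rw [univ_inter] at this
      rw [← this]
      exact (hout _).mpr (clq_plant hpt x a)
    · refine (Gx_le_add hp0.le hp1 fun x h => h).trans (add_le_add ?_ ?_) <;>
        exact Gx_le_sum hp0.le hp1 _ _ fun x ⟨u, hu⟩ => ⟨u, mem_univ _, hu⟩
    · calc _ ≤ ∑ J ∈ univ.filter (fun J : Finset (Fin k) => J.card ≤ s),
            Gx p (fun x => HasClq k (plant pt x a J)) :=
            Gx_le_sum hp0.le hp1 _ _ fun x ⟨J, h1, h2⟩ => ⟨J, mem_filter.mpr ⟨mem_univ _, h1⟩, h2⟩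
        _ ≤ ∑ _J ∈ univ.filter (fun J : Finset (Fin k) => J.card ≤ s),
            (Fintype.card V : ℝ) ^ k * p ^ c0 := by
            refine sum_le_sum fun J hJ => clq_bound hp0.le hp1 a J (le_trans ?_ hc)
            have := (mem_filter.mp hJ).2
            have := Nat.mul_le_mul this this
            omega
        _ ≤ _ := by
            rw [sum_const, nsmul_eq_mul]
            refine mul_le_mul_of_nonneg_right ?_ (by positivity)
            have : (univ.filter (fun J : Finset (Fin k) => J.card ≤ s)).card ≤ 2 ^ k :=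
              (card_filter_le _ _).trans (by simp)
            exact_mod_cast this
  have h2 := sum_le_sum fun a (_ : a ∈ univ) => h1 a
  rw [Gx_true, sum_add_distrib, sum_add_distrib, sum_comm, sum_comm (s := univ)
    (f := fun a u => Gx p (fun x => Med pt s (tupF F (At u)) x a))] at h2
  have h3 := sum_le_sum fun u (_ : u ∈ univ) =>
    med_bound hpt hn hp0 hp1 hq0 hq1 hη0 hη (good_or hpar hN hl (Ao u))
  have h4 := sum_le_sum fun u (_ : u ∈ univ) =>
    med_bound hpt hn hp0 hp1 hq0 hq1 hη0 hη (good_tup hpar hN hl (At u) (hAt u))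
  simp only [sum_const, card_univ, Fintype.card_fun, Fintype.card_fin, Fintype.card_prod,
    nsmul_eq_mul] at h2 h3 h4
  push_cast at h2 h3 h4
  have h5 : (0 : ℝ) < n ^ k := by positivity
  refine le_of_mul_le_mul_left (a := (n : ℝ) ^ k) ?_ h5
  refine h2.trans ((add_le_add (add_le_add h3 h4) le_rfl).trans (le_of_eq ?_))
  ring

end Pool.Agent.Lib.MP_ddf912_lc.AC
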