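import Mathlib

namespace Pool.Agent.Lib.MP_ddf912_lc.AC

/-- Gate types: unbounded fan-in AND, OR, NOR (NOT is NOR of one wire), and oracle gates. -/
inductive Gate
  | conj
  | disj
  | nor
  | query

/-- A circuit with input bits `ι` and `n` gates.  A wire is an input bit or a gate.
An oracle gate reads a CNF formula written as a table with `m` clause slots over `M` variable
names: `used i a` says whether slot `a` holds a clause and `lit i a l` whether literal `l` is in it. -/
structure Circuit (ι : Type) where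
  n : ℕ
  m : ℕ
  M : ℕ
  kind : Fin n → Gate
  level : Fin n → ℕ
  ins : Fin n → Finset (ι ⊕ Fin n)
  used : Fin n → Fin m → ι ⊕ Fin n
  lit : Fin n → Fin m → Fin M × Bool → ι ⊕ Fin n
  out : Fin n
  ins_lt : ∀ i j, Sum.inr j ∈ ins i → level j < level i
  used_lt : ∀ i a j, kind i = Gate.query → used i a = Sum.inr j → level j < level i
  lit_lt : ∀ i a l j, kind i = Gate.query → lit i a l = Sum.inr j → level j < level i

/-- Satisfiability of a CNF formula (a set of clauses; a clause is a set of literals). -/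
def Sat {M : ℕ} (φ : Finset (Finset (Fin M × Bool))) : Prop :=
  ∃ θ : Fin M → Bool, ∀ c ∈ φ, ∃ l ∈ c, θ l.1 = l.2

/-- The variables occurring in a CNF formula. -/
def vars {M : ℕ} (φ : Finset (Finset (Fin M × Bool))) : Finset (Fin M) :=
  φ.biUnion fun c => c.image Prod.fst

open Classical in
/-- The formula read by gate `i` when the wires carry the values `w`. -/
noncomputable def Circuit.cnf {ι : Type} (C : Circuit ι) (w : ι ⊕ Fin C.n → Prop) (i : Fin C.n) :
    Finset (Finset (Fin C.M × Bool)) :=
  (Finset.univ.filter fun a => w (C.used i a)).image fun a =>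
    Finset.univ.filter fun l => w (C.lit i a l)

/-- The value gate `i` computes from the wire values `w`. -/
def Circuit.gateVal {ι : Type} (C : Circuit ι) (w : ι ⊕ Fin C.n → Prop) (i : Fin C.n) : Prop :=
  match C.kind i with
  | Gate.conj => ∀ u ∈ C.ins i, w u
  | Gate.disj => ∃ u ∈ C.ins i, w u
  | Gate.nor => ∀ u ∈ C.ins i, ¬ w u
  | Gate.query => Sat (C.cnf w i)

/-- The circuit decides `k`-clique on `N`-vertex graphs given by adjacency matrix, and every
oracle query is a `d`-CNF whose parameter (variables over log of the table's bit length,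
rounded up) is at most `g`. -/
def Circuit.Decides {N : ℕ} (C : Circuit (Fin N × Fin N)) (k d g : ℕ) : Prop :=
  ∀ G : SimpleGraph (Fin N), ∃ w : (Fin N × Fin N) ⊕ Fin C.n → Prop,
    (∀ a b, w (Sum.inl (a, b)) ↔ G.Adj a b) ∧
    (∀ i, w (Sum.inr i) ↔ C.gateVal w i) ∧
    (∀ i, C.kind i = Gate.query → (∀ c ∈ C.cnf w i, c.card ≤ d) ∧
      ⌈((vars (C.cnf w i)).card : ℝ) / Real.logb 2 (C.m * (2 * C.M + 1) : ℕ)⌉₊ ≤ g) ∧
    (w (Sum.inr C.out) ↔ ¬ G.CliqueFree k)

end Pool.Agent.Lib.MP_ddf912_lc.AC
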