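import Pool.Agent.Lib.MP_ddf912_lc.AC.Prob

namespace Pool.Agent.Lib.MP_ddf912_lc.AC

open Finset

variable {E : Type} [Fintype E] [DecidableEq E]

def Jun {β : Type} (C : ℕ) (f : (E → Bool) → β) : Prop :=
  ∃ J : Finset E, J.card ≤ C ∧ DependsOn f (J : Set E)

def res {β : Type} (f : (E → Bool) → β) (V x : E → Bool) : (E → Bool) → β :=
  fun y => f (merge V y x)

noncomputable def E2 (q : ℝ) (F : (E → Bool) → (E → Bool) → ℝ) : ℝ :=
  Ex q fun s => Ex (1 / 2) fun x => F s x

def cJ (j : ℕ) : ℕ → ℕ
  | 0 => 0
  | r + 1 => j + 2 ^ j * cJ j r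

omit [Fintype E] [DecidableEq E] in
theorem Jun.mono {β : Type} {C C' : ℕ} {f : (E → Bool) → β} (h : Jun C f) (hC : C ≤ C') :
    Jun C' f := by
  obtain ⟨J, h1, h2⟩ := h
  exact ⟨J, h1.trans hC, h2⟩

omit [Fintype E] [DecidableEq E] in
theorem Jun.of_const {β : Type} {C : ℕ} {f : (E → Bool) → β} (h : ∀ x y, f x = f y) :
    Jun C f := ⟨∅, by simp, fun x y _ => h x y⟩

omit [Fintype E] [DecidableEq E] in
theorem Jun.res {β : Type} {C : ℕ} {f : (E → Bool) → β} (h : Jun C f) (V x : E → Bool) :
    Jun C (res f V x) := by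
  obtain ⟨J, h1, h2⟩ := h
  refine ⟨J, h1, fun y z hyz => h2 fun e he => ?_⟩
  simp only [merge]; split_ifs
  · exact hyz e he
  · rfl

omit [Fintype E] [DecidableEq E] in
theorem Jun.comp {β γ : Type} {C : ℕ} {f : (E → Bool) → β} {g : (E → Bool) → γ} (h : Jun C f)
    (hg : ∀ x y, f x = f y → g x = g y) : Jun C g := by
  obtain ⟨J, h1, h2⟩ := h
  exact ⟨J, h1, fun y z hyz => hg _ _ (h2 hyz)⟩

theorem E2_mono {q : ℝ} (h0 : 0 ≤ q) (h1 : q ≤ 1) {F G : (E → Bool) → (E → Bool) → ℝ}
    (h : ∀ s x, F s x ≤ G s x) : E2 q F ≤ E2 q G :=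
  Ex_mono h0 h1 fun s => Ex_mono (by norm_num) (by norm_num) fun x => h s x

theorem E2_const (q c : ℝ) : E2 q (fun _ _ : E → Bool => c) = c := by
  unfold E2; simp_rw [Ex_const]

theorem E2_add (q : ℝ) (F G : (E → Bool) → (E → Bool) → ℝ) :
    E2 q (fun s x => F s x + G s x) = E2 q F + E2 q G := by
  unfold E2; simp_rw [Ex_add]

theorem E2_sum {ι : Type*} (q : ℝ) (A : Finset ι) (F : ι → (E → Bool) → (E → Bool) → ℝ) :
    E2 q (fun s x => ∑ i ∈ A, F i s x) = ∑ i ∈ A, E2 q (F i) := by
  unfold E2; simp_rw [Ex_sum]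

theorem E2_merge (q : ℝ) (Y : E → Bool) (F : (E → Bool) → (E → Bool) → ℝ) :
    E2 q F = E2 q fun s1 x1 => E2 q fun s2 x2 => F (merge Y s1 s2) (merge Y x1 x2) := by
  unfold E2
  rw [← Ex_merge q Y]
  congr 1; funext s1
  show _ = Ex (1 / 2) fun x1 => Ex q fun s2 => Ex (1 / 2) fun x2 =>
    F (merge Y s1 s2) (merge Y x1 x2)
  rw [Ex_comm (1 / 2) q]
  congr 1; funext s2
  rw [Ex_merge (1 / 2) Y (fun x => F (merge Y s1 s2) x)]

theorem caseA {ι : Type} [DecidableEq ι] {q : ℝ} (hq0 : 0 ≤ q) (hq : q ≤ 1 / 2) (R M C : ℕ)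
    (g : ι → (E → Bool) → Prop) (J : ι → Finset E) (A : Finset ι) (hA : M ≤ A.card)
    (hJ : ∀ a ∈ A, (J a).card ≤ R) (hg : ∀ a ∈ A, DependsOn (g a) (J a : Set E))
    (hl : ∀ a ∈ A, ∃ y, g a y) (hd : ∀ a ∈ A, ∀ b ∈ A, a ≠ b → Disjoint (J a) (J b)) :
    E2 q (fun s x => ind (¬ Jun C (res (fun y => ∃ i, g i y) s x))) ≤ (1 - (1 / 4) ^ R) ^ M := by
  choose! y hy using hl
  have hq1 : q ≤ 1 := by linarith
  have key : ∀ s x, ind (¬ Jun C (res (fun y => ∃ i, g i y) s x)) ≤
      ∏ a ∈ A, (1 - ind (∀ e ∈ J a, s e = false) * ind (∀ e ∈ J a, x e = y a e)) := by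
    intro s x
    refine ind_le (prod_nonneg fun a _ => ?_) fun hn => ?_
    · rw [← ind_and]; linarith [ind_le_one ((∀ e ∈ J a, s e = false) ∧ ∀ e ∈ J a, x e = y a e)]
    · refine (prod_eq_one fun a ha => ?_).ge
      rw [← ind_and, ind_neg, sub_zero]
      rintro ⟨h1, h2⟩
      apply hn
      have : ∀ z, res (fun y => ∃ i, g i y) s x z := by
        intro z
        refine ⟨a, ?_⟩
        have : g a (merge s z x) = g a (y a) := hg a ha fun e he => by
          simp [merge, h1 e he, h2 e he]
        rw [this]; exact hy a ha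
      exact Jun.of_const fun z w => propext ⟨fun _ => this w, fun _ => this z⟩
  refine (E2_mono hq0 hq1 key).trans ?_
  unfold E2
  have e1 : ∀ s : E → Bool, Ex (1 / 2) (fun x =>
      ∏ a ∈ A, (1 - ind (∀ e ∈ J a, s e = false) * ind (∀ e ∈ J a, x e = y a e))) =
      ∏ a ∈ A, (1 - ind (∀ e ∈ J a, s e = false) *
        Ex (1 / 2) fun x => ind (∀ e ∈ J a, x e = y a e)) := by
    intro s
    rw [Ex_prod_disj (1 / 2) A J _ _ hd]
    · exact prod_congr rfl fun a _ => by rw [Ex_sub, Ex_const, Ex_mul_left]
    · intro a _ x z hxz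
      have : (∀ e ∈ J a, x e = y a e) ↔ ∀ e ∈ J a, z e = y a e :=
        forall₂_congr fun e he => by rw [hxz e he]
      simp only [this]
  simp_rw [e1]
  rw [Ex_prod_disj q A J _ _ hd]
  · have hb : (0 : ℝ) ≤ 1 - (1 / 4) ^ R := by
      have : ((1 : ℝ) / 4) ^ R ≤ 1 := pow_le_one₀ (by norm_num) (by norm_num)
      linarith
    calc _ ≤ ∏ _a ∈ A, (1 - (1 / 4 : ℝ) ^ R) := by
          refine prod_le_prod (fun a _ => ?_) fun a ha => ?_
          · refine Ex_nonneg hq0 hq1 fun s => ?_
            have h1 := ind_le_one (∀ e ∈ J a, s e = false)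
            have h2 : Ex (1 / 2) (fun x => ind (∀ e ∈ J a, x e = y a e)) ≤ 1 :=
              Ex_le (by norm_num) (by norm_num) fun x => ind_le_one _
            have h3 : 0 ≤ Ex (1 / 2) (fun x => ind (∀ e ∈ J a, x e = y a e)) :=
              Ex_nonneg (by norm_num) (by norm_num) fun x => ind_nonneg _
            have := mul_le_one₀ h1 h3 h2
            linarith
          · rw [Ex_sub, Ex_const, Ex_mul_right]
            have h1 := Ex_match (p := 1 / 2) (μ := 1 / 2) (by norm_num) le_rfl (by norm_num)
              (J a) (y a)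
            have h2 : (1 / 2 : ℝ) ^ (J a).card ≤ Ex q (fun s => ind (∀ e ∈ J a, s e = false)) := by
              have h := Ex_prod q (fun e b => if e ∈ J a then (if b = false then (1 : ℝ) else 0) else 1)
              have h1' : ∀ x : E → Bool,
                  (∏ e, if e ∈ J a then (if x e = false then (1 : ℝ) else 0) else 1) =
                  ind (∀ e ∈ J a, x e = false) := by
                intro x
                by_cases hx : ∀ e ∈ J a, x e = false
                · rw [ind_pos hx]
                  exact prod_eq_one fun e _ => by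
                    by_cases he : e ∈ J a
                    · simp [he, hx e he]
                    · simp [he]
                · rw [ind_neg hx]
                  push Not at hx
                  obtain ⟨e, he, hxe⟩ := hx
                  exact prod_eq_zero (mem_univ e) (by simp [he, hxe])
              simp_rw [h1'] at h
              rw [h]
              have e1 : (1 / 2 : ℝ) ^ (J a).card = ∏ e, if e ∈ J a then (1 / 2 : ℝ) else 1 := by
                rw [prod_ite_mem, univ_inter, prod_const]
              rw [e1]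
              refine prod_le_prod (fun e _ => by split_ifs <;> norm_num) fun e _ => ?_
              by_cases he : e ∈ J a
              · simp [he]; linarith
              · simp [he]
            have h3 : (1 / 4 : ℝ) ^ R ≤ (1 / 2) ^ (J a).card * (1 / 2) ^ (J a).card := by
              rw [← mul_pow]
              norm_num
              exact pow_le_pow_of_le_one (by norm_num) (by norm_num) (hJ a ha)
            have h4 := mul_le_mul h2 h1 (by positivity) ((by positivity : (0 : ℝ) ≤ _).trans h2)
            linarith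
      _ = (1 - (1 / 4 : ℝ) ^ R) ^ A.card := prod_const _
      _ ≤ _ := pow_le_pow_of_le_one hb (by linarith [pow_nonneg (by norm_num : (0 : ℝ) ≤ 1 / 4) R]) hA
  · intro a _ x z hxz
    have : (∀ e ∈ J a, x e = false) ↔ ∀ e ∈ J a, z e = false :=
      forall₂_congr fun e he => by rw [hxz e he]
    simp only [this]

theorem caseB {β : Type} {q K : ℝ} (hq0 : 0 ≤ q) (hq1 : q ≤ 1) (hK : 0 ≤ K) (j C : ℕ)
    (f : (E → Bool) → β) (Y : Finset E)
    (h : ∀ τ : E → Bool, E2 q (fun s x =>
      ind (¬ Jun C (res (fun y => f (merge (fun e => decide (e ∈ Y)) τ y)) s x))) ≤ K) :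
    E2 q (fun s x => ind (¬ Jun (j + 2 ^ j * C) (res f s x))) ≤ (Y.card * q) ^ j + 2 ^ j * K := by
  rw [E2_merge q (fun e => decide (e ∈ Y))]
  have h2 : E2 q (fun s1 _ => ind (j ≤ #{e ∈ Y | s1 e = true}) + 2 ^ j * K) ≤
      (Y.card * q) ^ j + 2 ^ j * K := by
    rw [E2_add, E2_const]
    have := Ex_stars hq0 hq1 Y j
    unfold E2
    simp_rw [Ex_const]
    linarith
  refine (E2_mono hq0 hq1 fun s1 x1 => ?_).trans h2
  by_cases hj : j ≤ #{e ∈ Y | s1 e = true}
  · rw [ind_pos hj]
    refine ((E2_mono hq0 hq1 fun _ _ => ind_le_one _).trans (E2_const q 1).le).trans ?_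
    have : (0 : ℝ) ≤ 2 ^ j * K := by positivity
    linarith
  rw [ind_neg hj, zero_add]
  push Not at hj
  set U := ({e ∈ Y | s1 e = true} : Finset E) with hU
  let τ : Finset E → E → Bool := fun W e => if e ∈ U then decide (e ∈ W) else x1 e
  calc _ ≤ E2 q (fun s2 x2 => ∑ W ∈ U.powerset, ind (¬ Jun C
        (res (fun y => f (merge (fun e => decide (e ∈ Y)) (τ W) y)) s2 x2))) := by
        refine E2_mono hq0 hq1 fun s2 x2 => ind_le_sum _ _ fun hn => ?_
        by_contra hc
        push Not at hc
        apply hn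
        choose! JW hJ1 hJ2 using hc
        refine ⟨U ∪ U.powerset.biUnion JW, ?_, ?_⟩
        · refine (card_union_le _ _).trans (add_le_add hj.le ?_)
          refine (card_biUnion_le_card_mul _ _ C hJ1).trans ?_
          rw [card_powerset]
          exact Nat.mul_le_mul_right _ (Nat.pow_le_pow_right (by norm_num) hj.le)
        · have hm : ∀ y : E → Bool, merge (merge (fun e => decide (e ∈ Y)) s1 s2) y
              (merge (fun e => decide (e ∈ Y)) x1 x2) =
              merge (fun e => decide (e ∈ Y)) (τ {e ∈ U | y e = true}) (merge s2 y x2) := by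
            intro y; funext e
            by_cases he : e ∈ Y
            · by_cases hs : s1 e = true
              · have : e ∈ U := mem_filter.mpr ⟨he, hs⟩
                simp [merge, τ, he, hs, this]
              · have : e ∉ U := fun h => hs (mem_filter.mp h).2
                simp [merge, τ, he, hs, this]
            · simp [merge, he]
          intro y z hyz
          have hW : ({e ∈ U | y e = true} : Finset E) = {e ∈ U | z e = true} :=
            filter_congr fun e he => by rw [hyz e (by simp [he])]
          simp only [res, hm]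
          rw [← hW]
          have hmem : ({e ∈ U | y e = true} : Finset E) ∈ U.powerset :=
            mem_powerset.mpr (filter_subset _ _)
          exact hJ2 _ hmem fun e he => hyz e (by
            rw [coe_union]; right
            exact mem_coe.mpr (mem_biUnion.mpr ⟨_, hmem, he⟩))
    _ ≤ ∑ _W ∈ U.powerset, K := by
        rw [E2_sum]; exact sum_le_sum fun W _ => h _
    _ ≤ _ := by
        rw [sum_const, card_powerset, nsmul_eq_mul]
        refine mul_le_mul_of_nonneg_right ?_ hK
        exact_mod_cast Nat.pow_le_pow_right (by norm_num) hj.le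

theorem fnStep {β : Type} {q : ℝ} (hq0 : 0 ≤ q) (hq1 : q ≤ 1) (j C : ℕ)
    (f : (E → Bool) → β) (hf : Jun C f) :
    E2 q (fun s x => ind (¬ Jun j (res f s x))) ≤ (C * q) ^ j := by
  obtain ⟨Y, h1, h2⟩ := hf
  have := caseB hq0 hq1 le_rfl j 0 f Y fun τ => by
    refine (E2_mono hq0 hq1 fun s x => ?_).trans (E2_const q 0).le
    rw [ind_neg]
    rw [not_not]
    refine Jun.of_const fun y z => h2 fun e he => ?_
    have : e ∈ Y := he
    simp [merge, this]
  simp only [mul_zero, add_zero] at this
  refine this.trans (pow_le_pow_left₀ (by positivity) ?_ _)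
  exact mul_le_mul_of_nonneg_right (by exact_mod_cast h1) hq0

theorem fss {ι : Type} [Fintype ι] {q ε : ℝ} {j R M : ℕ} (hq0 : 0 ≤ q) (hq : q ≤ 1 / 2)
    (hj : 1 ≤ j) (hε1 : (1 - (1 / 4 : ℝ) ^ R) ^ M ≤ ε) (hε2 : ((R * M : ℕ) * q) ^ j ≤ ε) :
    ∀ r ≤ R, ∀ g : ι → (E → Bool) → Prop, (∀ i, Jun r (g i)) →
      E2 q (fun s x => ind (¬ Jun (cJ j r) (res (fun y => ∃ i, g i y) s x))) ≤ cJ j r * ε := by
  classical
  have hq1 : q ≤ 1 := by linarith
  have hε : 0 ≤ ε := le_trans (by positivity) hε2
  intro r
  induction r with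
  | zero =>
    intro _ g hg
    refine (E2_mono hq0 hq1 fun s x => ?_).trans ((E2_const q 0).le.trans (by positivity))
    rw [ind_neg]
    rw [not_not]
    refine Jun.of_const fun y z => ?_
    simp only [res]
    congr 1; funext i
    obtain ⟨J, h1, h2⟩ := hg i
    have : J = ∅ := card_eq_zero.mp (by omega)
    subst this
    exact h2 fun e he => by simp at he
  | succ r ih =>
    intro hr g hg
    choose J hJ1 hJ2 using hg
    have hc1 : (1 : ℝ) + 2 ^ j * cJ j r ≤ cJ j (r + 1) := by
      simp only [cJ]; push_cast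
      have : (1 : ℝ) ≤ j := by exact_mod_cast hj
      linarith
    let P : Finset ι → Prop := fun A =>
      (∀ a ∈ A, ∃ y, g a y) ∧ ∀ a ∈ A, ∀ b ∈ A, a ≠ b → Disjoint (J a) (J b)
    obtain ⟨A, hA, hmax⟩ := exists_max_image ((univ : Finset (Finset ι)).filter P) card
      ⟨∅, by simp [P]⟩
    have hP : P A := (mem_filter.mp hA).2
    by_cases hM : M ≤ A.card
    · refine (caseA hq0 hq R M _ g J A hM (fun a _ => (hJ1 a).trans hr) (fun a _ => hJ2 a)
        hP.1 hP.2).trans (hε1.trans ?_)
      have : (0 : ℝ) ≤ 2 ^ j * cJ j r := by positivity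
      nlinarith
    push Not at hM
    have hY : (A.biUnion J).card ≤ R * M := by
      refine (card_biUnion_le_card_mul _ _ R fun a _ => (hJ1 a).trans hr).trans ?_
      rw [mul_comm]; exact Nat.mul_le_mul_left _ hM.le
    have := caseB hq0 hq1 (by positivity : (0 : ℝ) ≤ cJ j r * ε) j (cJ j r)
      (fun y => ∃ i, g i y) (A.biUnion J) fun τ => by
        refine ih (by omega) (fun i y => g i (merge (fun e => decide (e ∈ A.biUnion J)) τ y))
          fun i => ?_
        by_cases hl : ∃ y, g i y
        · refine ⟨J i \ A.biUnion J, ?_, fun y z hyz => hJ2 i fun e he => ?_⟩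
          · by_cases hi : i ∈ A
            · rw [sdiff_eq_empty_iff_subset.mpr (subset_biUnion_of_mem J hi)]; simp
            · have hnd : ¬ Disjoint (J i) (A.biUnion J) := by
                intro hdis
                have hP' : P (insert i A) := by
                  refine ⟨fun a ha => ?_, fun a ha b hb hab => ?_⟩
                  · rcases mem_insert.mp ha with rfl | ha
                    · exact hl
                    · exact hP.1 a ha
                  · rcases mem_insert.mp ha with rfl | ha' <;> rcases mem_insert.mp hb with rfl | hb'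
                    · exact absurd rfl hab
                    · exact hdis.mono_right (subset_biUnion_of_mem J hb')
                    · exact (hdis.mono_right (subset_biUnion_of_mem J ha')).symm
                    · exact hP.2 a ha' b hb' hab
                have := hmax _ (mem_filter.mpr ⟨mem_univ _, hP'⟩)
                rw [card_insert_of_notMem hi] at this
                omega
              have h1 := card_sdiff_add_card_inter (J i) (A.biUnion J)
              have h2 : 0 < (J i ∩ A.biUnion J).card :=
                card_pos.mpr (not_disjoint_iff_nonempty_inter.mp hnd)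
              have := hJ1 i
              omega
          · by_cases hY : e ∈ A.biUnion J
            · simp only [merge, hY, decide_true, if_true]
            · have := hyz e (mem_coe.mpr (mem_sdiff.mpr ⟨he, hY⟩))
              simp only [merge, hY, decide_false, Bool.false_eq_true, if_false, this]
        · push Not at hl
          exact Jun.of_const fun y z => propext ⟨fun h => (hl _ h).elim, fun h => (hl _ h).elim⟩
    refine this.trans ?_
    have h3 : (((A.biUnion J).card : ℝ) * q) ^ j ≤ ε := by
      refine le_trans (pow_le_pow_left₀ (by positivity) ?_ _) hε2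
      exact mul_le_mul_of_nonneg_right (by exact_mod_cast hY) hq0
    nlinarith

end Pool.Agent.Lib.MP_ddf912_lc.AC
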