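import Pool.Agent.Lib.MP_ddf912_lc.AC.Defs

namespace Pool.Agent.Lib.MP_ddf912_lc.AC

open Finset

theorem exists_tuple {α : Type} [DecidableEq α] {v : ℕ} (A : Finset α) (h : A.card ≤ v) :
    ∃ u : Fin v → Option α, ∀ a, a ∈ A ↔ ∃ i, u i = some a := by
  refine ⟨fun i => if hi : i.val < A.card then some (A.equivFin.symm ⟨i, hi⟩).1 else none,
    fun a => ⟨fun ha => ⟨⟨A.equivFin ⟨a, ha⟩, (A.equivFin ⟨a, ha⟩).2.trans_le h⟩, ?_⟩, ?_⟩⟩
  · simp
  · rintro ⟨i, hi⟩
    by_cases h' : i.val < A.card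
    · simp only [h', dite_true, Option.some.injEq] at hi
      exact hi ▸ (A.equivFin.symm ⟨i, h'⟩).2
    · simp [h'] at hi

theorem coll_count {M H : ℕ} {x y : Fin M} (hxy : x ≠ y) :
    (univ.filter fun h : Fin M → Fin H => h x = h y).card * H ≤ H ^ M := by
  have := card_le_card_of_injOn (s := (univ.filter fun h : Fin M → Fin H => h x = h y) ×ˢ
    (univ : Finset (Fin H))) (t := (univ : Finset (Fin M → Fin H)))
    (fun z => Function.update z.1 x z.2) (fun _ _ => mem_coe.mpr (mem_univ _)) (by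
      rintro ⟨h, c⟩ h1 ⟨h', c'⟩ h2 e
      have h1' : h x = h y := by simpa using h1
      have h2' : h' x = h' y := by simpa using h2
      have e1 : c = c' := by simpa using congrFun e x
      have e2 : ∀ z, z ≠ x → h z = h' z := fun z hz => by
        simpa [Function.update_of_ne hz] using congrFun e z
      refine Prod.ext (funext fun z => ?_) e1
      by_cases hz : z = x
      · subst hz; simp only; rw [h1', h2', e2 y hxy.symm]
      · exact e2 z hz)
  simpa using this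

theorem half_step {M H v : ℕ} (hH : 2 * (v * v) < H) {ι : Type} (S : Finset ι)
    (A : ι → Finset (Fin M)) (hA : ∀ i, (A i).card ≤ v) :
    ∃ h : Fin M → Fin H, ∃ S' ⊆ S, 2 * S'.card ≤ S.card ∧
      ∀ i ∈ S, i ∉ S' → Set.InjOn h (A i) := by
  classical
  have hH0 : 0 < H := by omega
  have h1 : ∀ i, 2 * (univ.filter fun h : Fin M → Fin H => ¬ Set.InjOn h (A i)).card ≤ H ^ M := by
    intro i
    have hsub : (univ.filter fun h : Fin M → Fin H => ¬ Set.InjOn h (A i)) ⊆
        (A i).offDiag.biUnion fun z => univ.filter fun h : Fin M → Fin H => h z.1 = h z.2 := by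
      intro h hh
      have := (mem_filter.mp hh).2
      simp only [Set.InjOn, not_forall] at this
      obtain ⟨x, hx, y, hy, e, hne⟩ := this
      exact mem_biUnion.mpr ⟨(x, y), mem_offDiag.mpr ⟨hx, hy, hne⟩, by simpa using e⟩
    have h2 := (card_le_card hsub).trans card_biUnion_le
    have h3 : (∑ z ∈ (A i).offDiag, (univ.filter fun h : Fin M → Fin H => h z.1 = h z.2).card) * H ≤
        v * v * H ^ M := by
      rw [sum_mul]
      refine (sum_le_card_nsmul _ _ (H ^ M) fun z hz => coll_count (mem_offDiag.mp hz).2.2).trans ?_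
      rw [smul_eq_mul]
      refine Nat.mul_le_mul_right _ ?_
      rw [offDiag_card]
      exact (Nat.sub_le _ _).trans (Nat.mul_le_mul (hA i) (hA i))
    refine Nat.le_of_mul_le_mul_right (c := H) ?_ hH0
    calc _ ≤ 2 * (v * v * H ^ M) := by
          rw [mul_assoc]; exact Nat.mul_le_mul_left _ ((Nat.mul_le_mul_right _ h2).trans h3)
      _ ≤ _ := by rw [← mul_assoc, mul_comm (H ^ M)]; exact Nat.mul_le_mul_right _ hH.le
  have h2 : ∑ h : Fin M → Fin H, 2 * (S.filter fun i => ¬ Set.InjOn h (A i)).card ≤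
      ∑ _h : Fin M → Fin H, S.card := by
    rw [← mul_sum]
    simp_rw [card_filter]
    rw [sum_comm, mul_sum]
    simp_rw [← card_filter]
    refine (sum_le_card_nsmul _ _ _ fun i _ => h1 i).trans (le_of_eq ?_)
    simp [mul_comm]
  have : Nonempty (Fin M → Fin H) := ⟨fun _ => ⟨0, hH0⟩⟩
  obtain ⟨h, -, hh⟩ := exists_le_of_sum_le univ_nonempty h2
  refine ⟨h, _, filter_subset _ _, hh, fun i hi hn => ?_⟩
  by_contra hc
  exact hn (mem_filter.mpr ⟨hi, hc⟩)

theorem greedy {M H v : ℕ} (hH : 2 * (v * v) < H) {ι : Type} (A : ι → Finset (Fin M))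
    (hA : ∀ i, (A i).card ≤ v) : ∀ (r : ℕ) (S : Finset ι), S.card < 2 ^ r →
      ∃ h : Fin r → Fin M → Fin H, ∀ i ∈ S, ∃ t, Set.InjOn (h t) (A i) := by
  intro r
  induction r with
  | zero =>
    intro S hS
    have : S = ∅ := card_eq_zero.mp (by omega)
    subst this
    exact ⟨fun t => t.elim0, by simp⟩
  | succ r ih =>
    intro S hS
    obtain ⟨h, S', -, h2, h3⟩ := half_step hH S A hA
    obtain ⟨h', h4⟩ := ih S' (by rw [pow_succ] at hS; omega)
    refine ⟨Fin.cons h h', fun i hi => ?_⟩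
    by_cases hi' : i ∈ S'
    · obtain ⟨t, ht⟩ := h4 i hi'
      exact ⟨t.succ, by simpa using ht⟩
    · exact ⟨0, by simpa using h3 i hi hi'⟩

theorem perfect {M H v r : ℕ} (hH : 2 * (v * v) < H) (hr : (M + 1) ^ v < 2 ^ r) :
    ∃ h : Fin r → Fin M → Fin H, ∀ A : Finset (Fin M), A.card ≤ v → ∃ t, Set.InjOn (h t) A := by
  classical
  obtain ⟨h, hh⟩ := greedy hH (fun u : Fin v → Option (Fin M) =>
    univ.filter fun a => ∃ i, u i = some a) (fun u => by
      refine le_trans (card_le_card_of_injOn (t := univ.image u) some (fun a ha => ?_)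
        (Option.some_injective _).injOn) (card_image_le.trans (by simp))
      simpa using ha) r univ (by simpa using hr)
  refine ⟨h, fun A hA => ?_⟩
  obtain ⟨u, hu⟩ := exists_tuple A hA
  obtain ⟨t, ht⟩ := hh u (mem_univ _)
  refine ⟨t, ht.mono fun a ha => ?_⟩
  simpa using (hu a).mp ha

theorem sat_hash {M H v r d : ℕ} {h : Fin r → Fin M → Fin H}
    (hh : ∀ A : Finset (Fin M), A.card ≤ v → ∃ t, Set.InjOn (h t) A)
    (φ : Finset (Finset (Fin M × Bool))) (hd : ∀ c ∈ φ, c.card ≤ d) (hv : (vars φ).card ≤ v) :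
    Sat φ ↔ ∃ (t : Fin r) (θ : Fin H → Bool), ∀ κ : Fin d → Option (Fin H × Bool),
      (∃ c ∈ φ, ∀ l ∈ c, ∃ i, κ i = some (h t l.1, l.2)) →
        ∃ l : Fin H × Bool, (∃ i, κ i = some l) ∧ θ l.1 = l.2 := by
  classical
  constructor
  · rintro ⟨θ, hθ⟩
    obtain ⟨t, ht⟩ := hh _ hv
    refine ⟨t, fun y => decide (∃ x ∈ vars φ, h t x = y ∧ θ x = true), ?_⟩
    rintro κ ⟨c, hc, hκ⟩
    obtain ⟨l, hl, e⟩ := hθ c hc
    refine ⟨_, hκ l hl, ?_⟩
    have hm : l.1 ∈ vars φ := mem_biUnion.mpr ⟨c, hc, mem_image_of_mem _ hl⟩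
    simp only
    rw [← e]
    cases hb : θ l.1
    · rw [decide_eq_false_iff_not]
      rintro ⟨x, hx, e1, e2⟩
      rw [ht hx hm e1, hb] at e2
      exact absurd e2 (by simp)
    · rw [decide_eq_true_iff]
      exact ⟨l.1, hm, rfl, hb⟩
  · rintro ⟨t, θ, hθ⟩
    refine ⟨fun x => θ (h t x), fun c hc => ?_⟩
    obtain ⟨κ, hκ⟩ := exists_tuple (c.image fun l => (h t l.1, l.2))
      (card_image_le.trans (hd c hc))
    obtain ⟨l', h1, h2⟩ := hθ κ ⟨c, hc, fun l hl => (hκ _).mp (mem_image_of_mem _ hl)⟩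
    obtain ⟨l, hl, rfl⟩ := mem_image.mp ((hκ l').mpr h1)
    exact ⟨l, hl, h2⟩

theorem vars_le {ι : Type} (C : Circuit ι) (w : ι ⊕ Fin C.n → Prop) (i : Fin C.n) {g B : ℕ}
    (hB : C.m * (2 * C.M + 1) ≤ 2 ^ B)
    (h : ⌈((vars (C.cnf w i)).card : ℝ) / Real.logb 2 (C.m * (2 * C.M + 1) : ℕ)⌉₊ ≤ g) :
    (vars (C.cnf w i)).card ≤ g * B := by
  by_cases h1 : 1 < C.m * (2 * C.M + 1)
  · have h2 : 0 < Real.logb 2 (C.m * (2 * C.M + 1) : ℕ) :=
      Real.logb_pos (by norm_num) (by exact_mod_cast h1)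
    have h3 : Real.logb 2 (C.m * (2 * C.M + 1) : ℕ) ≤ B := by
      rw [Real.logb_le_iff_le_rpow (by norm_num) (by exact_mod_cast (by omega)), Real.rpow_natCast]
      exact_mod_cast hB
    have h4 := Nat.ceil_le.mp h
    rw [div_le_iff₀ h2] at h4
    have h5 := h4.trans (mul_le_mul_of_nonneg_left h3 (Nat.cast_nonneg g))
    exact_mod_cast h5
  · have : vars (C.cnf w i) = ∅ := by
      rw [eq_empty_iff_forall_notMem]
      intro x hx
      obtain ⟨c, hc, -⟩ := mem_biUnion.mp hx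
      obtain ⟨a, -, -⟩ := mem_image.mp hc
      have := a.2
      have := x.2
      apply h1
      nlinarith
    simp [this]

end Pool.Agent.Lib.MP_ddf912_lc.AC
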