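import Pool.Agent.Lib.MP_ddf912_lc.AC.Num

namespace Pool.Agent.Lib.MP_ddf912_lc.AC

open Finset Filter

theorem sizes {c f z T N n m M m0 : ℕ} (hz : 2 ≤ z) (hT : c + 1 ≤ T) (hf : f ≤ 2 ^ z)
    (hN : N ≤ (2 ^ z) ^ (T + 1)) (hS : n + m + M ≤ f * N ^ c) (hm0 : m0 ≤ 2 ^ z) :
    m * (2 * M + 1) ≤ 2 ^ ((2 * T * (c + 1) + 2) * z) ∧ M + 1 ≤ 2 ^ ((2 * T * (c + 1) + 2) * z) ∧
      N * N + n + n * m0 * m + n * m0 ≤ (2 ^ z) ^ (T * (2 * c + 5)) := by
  have hy : 4 ≤ 2 ^ z := Nat.pow_le_pow_right (n := 2) (by norm_num) hz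
  have hX : f * N ^ c ≤ (2 ^ z) ^ (T * (c + 1)) := by
    calc _ ≤ 2 ^ z * ((2 ^ z) ^ (T + 1)) ^ c := Nat.mul_le_mul hf (Nat.pow_le_pow_left hN c)
      _ = (2 ^ z) ^ (T * c + (c + 1)) := by generalize 2 ^ z = y; ring
      _ ≤ _ := Nat.pow_le_pow_right (by omega) (by rw [mul_add]; omega)
  have hB : 2 ^ ((2 * T * (c + 1) + 2) * z) =
      (2 ^ z) ^ (T * (c + 1)) * (2 ^ z) ^ (T * (c + 1)) * (2 ^ z * 2 ^ z) := by
    rw [mul_comm _ z, pow_mul]; generalize 2 ^ z = y; ring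
  have hZ : (2 ^ z) ^ (T * (2 * c + 5)) = (2 ^ z) ^ (T * (c + 1)) * (2 ^ z) ^ (T * (c + 1)) *
      (2 ^ z) ^ T * (2 ^ z) ^ T * (2 ^ z) ^ T := by
    generalize 2 ^ z = y; ring
  have h1 : (2 ^ z) ^ T ≤ (2 ^ z) ^ (T * (c + 1)) :=
    Nat.pow_le_pow_right (by omega) (Nat.le_mul_of_pos_right _ (by omega))
  have h2 : 2 ^ z ≤ (2 ^ z) ^ T := Nat.le_self_pow (by omega) _
  rw [pow_succ] at hN
  rw [hB, hZ]
  generalize (2 ^ z) ^ (T * (c + 1)) = X at *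
  generalize (2 ^ z) ^ T = W at *
  generalize 2 ^ z = y at *
  have hn : n ≤ X := by omega
  have hm : m ≤ X := by omega
  have hM : M ≤ X := by omega
  have hyy : 16 ≤ y * y := by nlinarith
  have hX1 : 1 ≤ X := by omega
  have hXX : X ≤ X * X := Nat.le_mul_of_pos_left _ hX1
  have h3 : X * X * 16 ≤ X * X * (y * y) := Nat.mul_le_mul_left _ hyy
  refine ⟨?_, by omega, ?_⟩
  · have : m * (2 * M + 1) ≤ X * (3 * X) := Nat.mul_le_mul hm (by omega)
    nlinarith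
  · have hW : 1 ≤ W := by omega
    have a1 : N * N ≤ X * X * W * W := by
      have : N ≤ X * W := hN.trans (Nat.mul_le_mul h1 h2)
      have := Nat.mul_le_mul this this
      nlinarith
    have a2 : X * X * W ≤ X * X * W * W := Nat.le_mul_of_pos_right _ hW
    have a3 : X * X ≤ X * X * W := Nat.le_mul_of_pos_right _ hW
    have a4 : n * m0 * m ≤ X * X * W := by
      have := Nat.mul_le_mul (Nat.mul_le_mul hn (hm0.trans h2)) hm
      nlinarith
    have a5 : n * m0 ≤ X * X * W := Nat.mul_le_mul (hn.trans hXX) (hm0.trans h2)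
    have a6 : X * X * W * W * 4 ≤ X * X * W * W * W := Nat.mul_le_mul_left _ (by omega)
    omega

theorem m0_le {g β z d : ℕ} (hz : 1 ≤ z) :
    (β * z * (g * (β * z)) + 1) * (2 * (2 * (g * (β * z) * (g * (β * z))) + 1) + 1) ^ d ≤
      (g * β * β + 4 * (g * β * (g * β)) + 3) ^ (d + 1) * z ^ (2 * (d + 1)) := by
  have h1 : 1 ≤ z ^ 2 := Nat.one_le_pow _ _ hz
  rw [pow_mul, ← mul_pow, pow_succ, mul_comm]
  refine Nat.mul_le_mul (Nat.pow_le_pow_left ?_ _) ?_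
  · have : (g * β * β + 4 * (g * β * (g * β)) + 3) * z ^ 2 = g * β * β * z ^ 2 +
      4 * (g * (β * z) * (g * (β * z))) + 3 * z ^ 2 := by ring
    omega
  · have : (g * β * β + 4 * (g * β * (g * β)) + 3) * z ^ 2 = β * z * (g * (β * z)) +
      4 * (g * β * (g * β)) * z ^ 2 + 3 * z ^ 2 := by ring
    omega

theorem main (c k : ℕ) (hk : 512 * (c + 3) < k) (D d g f : ℕ) :
    ∃ N₀ : ℕ, ∀ N ≥ N₀, ∀ C : Circuit (Fin N × Fin N), (∀ i, C.level i ≤ D) →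
      C.n + C.m + C.M ≤ f * N ^ c → ¬ C.Decides k d g := by
  obtain ⟨s, hs⟩ : ∃ s, s = 8 * (2 * c + 5) + 8 := ⟨_, rfl⟩
  obtain ⟨A, hA⟩ : ∃ A, A = 3 * D + 3 + 1 := ⟨_, rfl⟩
  obtain ⟨j, hj⟩ : ∃ j, j = 32 * s * A * (2 * c + 5) + 2 + 40 * s * A * s := ⟨_, rfl⟩
  obtain ⟨β, hβ⟩ : ∃ β, β = 2 * (32 * s * A) * (c + 1) + 2 := ⟨_, rfl⟩
  have ev : ∀ a : ℕ, ∀ᶠ z : ℕ in atTop, a ≤ 2 ^ z := fun a => by simpa using ev_poly a 0
  obtain ⟨z0, hz0⟩ := eventually_atTop.mp ((eventually_ge_atTop 2).and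
    ((ev (CD j (3 * D + 3) * 4 ^ CD j (3 * D + 3) * j)).and
    ((ev_poly ((g * β * β + 4 * (g * β * (g * β)) + 3) ^ (d + 1)) (2 * (d + 1))).and
    ((ev (2 * CD j (3 * D + 3 + 1))).and ((ev (3 * D + 3 + 1)).and ((ev (2 ^ k * 16)).and
    ((ev (k * 2 ^ (32 * s * A))).and (ev f))))))))
  have hT : c + 1 ≤ 32 * s * A :=
    le_trans (by omega) (Nat.le_mul_of_pos_right (32 * s) (by omega : 0 < A))
  refine ⟨k * (2 ^ (32 * s * A)) ^ z0, fun N hN C hD hS hC => ?_⟩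
  have hk0 : 0 < k := by omega
  have h1 : (2 ^ (32 * s * A)) ^ z0 ≤ N / k := (Nat.le_div_iff_mul_le hk0).mpr (by
    rw [mul_comm]; exact hN)
  have hb : 1 < 2 ^ (32 * s * A) := Nat.one_lt_two_pow (by omega)
  obtain ⟨z, hz1, hz2⟩ := exists_nat_pow_near (x := N / k) (y := 2 ^ (32 * s * A))
    (le_trans (Nat.one_le_pow _ _ (by omega)) h1) hb
  have hzz : z0 ≤ z := by
    have := (pow_lt_pow_iff_right₀ hb).mp (h1.trans_lt hz2)
    omega
  obtain ⟨c1, c2, c3, c4, c5, c6, c7, c8⟩ := hz0 z hzz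
  have e1 : (2 ^ (32 * s * A)) ^ z = (2 ^ z) ^ (32 * s * A) := by
    rw [← pow_mul, ← pow_mul, mul_comm]
  have hN1 : k * (2 ^ z) ^ (32 * s * A) ≤ N := by
    rw [← e1, mul_comm]; exact (Nat.le_div_iff_mul_le hk0).mp hz1
  have hN2 : N ≤ (2 ^ z) ^ (32 * s * A + 1) := by
    have := (Nat.div_lt_iff_lt_mul hk0).mp hz2
    rw [pow_succ, e1, mul_assoc, mul_comm _ k] at this
    rw [pow_succ]
    exact this.le.trans (Nat.mul_le_mul_left _ c7)
  have hm0 := (m0_le (g := g) (β := β) (d := d) (show 1 ≤ z by omega)).trans c3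
  obtain ⟨s1, s2, s3⟩ := sizes c1 hT c8 hN2 hS hm0
  rw [← hβ] at s1 s2
  obtain ⟨Γ, _, F, lv, out, hN, hl, hout, hcard⟩ := sim (B := β * z)
    (H := 2 * (g * (β * z) * (g * (β * z))) + 1) (r := β * z * (g * (β * z)) + 1) C hD hC s1
    (Nat.lt_succ_self _) (by
      refine (Nat.pow_le_pow_left s2 _).trans_lt ?_
      rw [← pow_mul]
      exact Nat.pow_lt_pow_right (by norm_num) (Nat.lt_succ_self _))
  rw [← hcard] at s3
  have := core (k := k) (n := (2 ^ z) ^ (32 * s * A))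
    (pt := fun i b => Fin.castLE hN1 (finProdFinEquiv (i, b)))
    (p := ((1 / 2) ^ z) ^ (4 * A)) (η := 2 * ((1 / 2) ^ z) ^ (8 * s * A * s)) (s := s)
    (c0 := 8 * s * k + k)
    (fun i i' b b' h => by
      simpa using finProdFinEquiv.injective (Fin.castLE_injective _ h))
    (by positivity) (by omega) (by positivity)
    (pow_le_one₀ (by positivity) (pow_le_one₀ (by norm_num) (by norm_num))) (by positivity)
    (par_ok (by omega) (by omega) c2 hm0) hN hl (by positivity)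
    (fun b hb1 hb2 => by
      have := eta_ok (A := A) (s := s) (c2 := 2 * c + 5) (by omega) (by omega) c4 c5 s3 hb1 hb2
      rw [← hj] at this
      rw [← hA] at this ⊢
      exact this)
    (by
      rw [Nat.choose_two_right, Nat.le_div_iff_mul_le (by norm_num)]
      obtain ⟨k', rfl⟩ : ∃ k', k = k' + 1 := ⟨k - 1, by omega⟩
      rw [Nat.add_sub_cancel]
      have h1 : 32 * s ≤ k' := by omega
      have h2 := Nat.mul_le_mul_left (k' + 1) h1
      have h3 : s * s ≤ s * (k' + 1) := Nat.mul_le_mul_left _ (by omega)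
      have h4 : k' + 1 ≤ s * (k' + 1) := Nat.le_mul_of_pos_left _ (by omega)
      nlinarith) out hout
  rw [Fintype.card_fin] at this
  exact absurd this (not_le.mpr (fin_ok (by omega) hs hk0 c6 s3 hN2))

end Pool.Agent.Lib.MP_ddf912_lc.AC
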