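import Pool.Agent.Lib.MP_ddf912_lc.AC.Sim

namespace Pool.Agent.Lib.MP_ddf912_lc.AC

open Finset Filter

theorem ev_poly (a e : ℕ) : ∀ᶠ z : ℕ in atTop, a * z ^ e ≤ 2 ^ z := by
  have h := tendsto_pow_const_div_const_pow_of_one_lt e (r := (2 : ℝ)) (by norm_num)
  have h2 := h.const_mul (a : ℝ)
  rw [mul_zero] at h2
  filter_upwards [h2.eventually (gt_mem_nhds (by norm_num : (0 : ℝ) < 1))] with z hz
  have h3 : (0 : ℝ) < 2 ^ z := by positivity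
  rw [← mul_div_assoc, div_lt_one h3] at hz
  exact_mod_cast hz.le

theorem le_w {z a e : ℕ} (f : ℕ) (h : a ≤ (2 ^ z) ^ e) :
    (a : ℝ) * ((1 / 2) ^ z) ^ (e + f) ≤ ((1 / 2) ^ z) ^ f := by
  have h1 : (a : ℝ) ≤ (2 ^ z) ^ e := by exact_mod_cast h
  have h2 : ((2 : ℝ) ^ z) ^ e * ((1 / 2) ^ z) ^ e = 1 := by
    rw [← mul_pow, ← mul_pow]; norm_num
  calc _ ≤ ((2 : ℝ) ^ z) ^ e * ((1 / 2) ^ z) ^ (e + f) :=
        mul_le_mul_of_nonneg_right h1 (by positivity)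
    _ = _ := by rw [pow_add, ← mul_assoc, h2, one_mul]

theorem w_anti {z e f : ℕ} (h : f ≤ e) : (((1 : ℝ) / 2) ^ z) ^ e ≤ ((1 / 2) ^ z) ^ f :=
  pow_le_pow_of_le_one (by positivity) (pow_le_one₀ (by norm_num) (by norm_num)) h

theorem par_ok {z j D m0 : ℕ} (hz : 1 ≤ z) (hj : 1 ≤ j) (h1 : CD j D * 4 ^ CD j D * j ≤ 2 ^ z)
    (h2 : m0 ≤ 2 ^ z) :
    Par (((1 / 2) ^ z) ^ 4) (((1 / 2) ^ z) ^ j) j D (4 ^ CD j D * j * z) m0 := by
  generalize hR : CD j D = R at *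
  have hzz : z ≤ 2 ^ z := Nat.lt_two_pow_self.le
  have key : ∀ a : ℕ, a ≤ (2 ^ z) ^ 2 →
      ((a : ℝ) * ((1 / 2) ^ z) ^ 4) ^ j ≤ ((1 / 2) ^ z) ^ j := by
    intro a ha
    refine pow_le_pow_left₀ (by positivity) ?_ _
    have := (le_w 2 ha).trans (w_anti (z := z) (show 1 ≤ 2 by norm_num))
    rwa [pow_one] at this
  refine ⟨by positivity, ?_, hj, ?_, ?_, ?_⟩
  · refine (w_anti (show 1 ≤ 4 by norm_num)).trans ?_
    rw [pow_one]
    exact (pow_le_pow_of_le_one (by norm_num) (by norm_num) hz).trans (by norm_num)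
  · rw [hR]
    have h3 : (1 : ℝ) - (1 / 4) ^ R ≤ Real.exp (-(1 / 4) ^ R) := by
      linarith [Real.add_one_le_exp (-(1 / 4 : ℝ) ^ R)]
    have h4 : (0 : ℝ) ≤ 1 - (1 / 4) ^ R := by
      have : ((1 : ℝ) / 4) ^ R ≤ 1 := pow_le_one₀ (by norm_num) (by norm_num)
      linarith
    refine (pow_le_pow_left₀ h4 h3 _).trans ?_
    have h5 : Real.exp (-(1 / 4) ^ R) ^ 4 ^ R = Real.exp (-1) := by
      rw [← Real.exp_nat_mul]; congr 1
      push_cast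
      rw [mul_neg, ← mul_pow]; norm_num
    rw [mul_assoc, pow_mul, h5, ← pow_mul, mul_comm z j]
    refine pow_le_pow_left₀ (Real.exp_pos _).le ?_ _
    rw [Real.exp_neg, one_div]
    exact inv_anti₀ (by norm_num) (by linarith [Real.add_one_le_exp (1 : ℝ)])
  · rw [hR]
    refine key _ ?_
    rw [sq, ← mul_assoc, ← mul_assoc]
    exact Nat.mul_le_mul h1 hzz
  · rw [hR]
    refine key _ ?_
    rw [sq]
    refine Nat.mul_le_mul h2 (le_trans ?_ h1)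
    rw [mul_assoc]
    exact Nat.le_mul_of_pos_right _ (by positivity)

theorem eta_ok {z s A c2 C G D b : ℕ} (hA : 1 ≤ A) (hs : 1 ≤ s) (hC : 2 * C ≤ 2 ^ z)
    (hD : D + 1 ≤ 2 ^ z) (hG : G ≤ (2 ^ z) ^ (32 * s * A * c2)) (hb1 : s < b) (hb2 : b ≤ 2 * s) :
    (((2 * C : ℕ) : ℝ) / (((2 ^ z) ^ (32 * s * A) : ℕ) : ℝ)) ^ b +
      ((D : ℝ) * G + 1) * (C * ((1 / 2) ^ z) ^ (32 * s * A * c2 + 2 + 40 * s * A * s)) ≤
      (((1 / 2) ^ z) ^ (4 * A) * (((1 / 2) ^ z) ^ 4) ^ A) ^ (b * b) *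
        (2 * ((1 / 2) ^ z) ^ (8 * s * A * s)) := by
  have e1 : ((((1 : ℝ) / 2) ^ z) ^ (4 * A) * (((1 / 2) ^ z) ^ 4) ^ A) ^ (b * b) *
        (2 * ((1 / 2) ^ z) ^ (8 * s * A * s)) =
      ((1 / 2) ^ z) ^ (8 * A * (b * b) + 8 * s * A * s) +
        ((1 / 2) ^ z) ^ (8 * A * (b * b) + 8 * s * A * s) := by
    generalize ((1 : ℝ) / 2) ^ z = w
    ring
  rw [e1]
  refine add_le_add ?_ ?_
  · obtain ⟨e, he⟩ : ∃ e, 32 * s * A = 1 + e := ⟨32 * s * A - 1, by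
      have : 1 ≤ s * A := Nat.mul_pos hs hA
      have : 32 * s * A = 32 * (s * A) := by ring
      omega⟩
    have h1 : ((2 * C : ℕ) : ℝ) / (((2 ^ z) ^ (32 * s * A) : ℕ) : ℝ) ≤ ((1 / 2) ^ z) ^ e := by
      refine le_trans (le_of_eq ?_) (le_w e (show 2 * C ≤ (2 ^ z) ^ 1 by simpa using hC))
      rw [← he, div_eq_mul_inv]
      push_cast
      rw [one_div, inv_pow, inv_pow]
    refine (pow_le_pow_left₀ (by positivity) h1 _).trans ?_
    rw [← pow_mul _ e b]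
    refine w_anti ?_
    have h2 : 8 * A * (b * b) ≤ 16 * (s * A * b) := by
      have := Nat.mul_le_mul_left (8 * A * b) hb2
      nlinarith
    have h3 : 8 * s * A * s ≤ 8 * (s * A * b) := by
      have := Nat.mul_le_mul_left (8 * s * A) hb1.le
      nlinarith
    have h4 : b ≤ s * A * b := Nat.le_mul_of_pos_left _ (Nat.mul_pos hs hA)
    have h5 : b + e * b = 32 * (s * A * b) := by
      have : (1 + e) * b = 32 * s * A * b := by rw [he]
      nlinarith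
    omega
  · have h1 : (D * G + 1) * C ≤ (2 ^ z) ^ (32 * s * A * c2 + 2) := by
      have h2 : 1 ≤ (2 ^ z) ^ (32 * s * A * c2) := Nat.one_le_pow _ _ (by positivity)
      have h3 : D * G + 1 ≤ (D + 1) * (2 ^ z) ^ (32 * s * A * c2) := by
        have := Nat.mul_le_mul_left D hG
        rw [add_mul, one_mul]; omega
      calc _ ≤ (2 ^ z * (2 ^ z) ^ (32 * s * A * c2)) * 2 ^ z :=
            Nat.mul_le_mul (h3.trans (Nat.mul_le_mul_right _ hD)) (by omega)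
        _ = _ := by generalize 2 ^ z = y; ring
    have h4 := le_w (40 * s * A * s) h1
    push_cast at h4
    rw [← mul_assoc]
    refine h4.trans (w_anti ?_)
    have := Nat.mul_le_mul_left (8 * A) (Nat.mul_le_mul hb2 hb2)
    nlinarith

theorem fin_ok {z s A c2 k G N : ℕ} (hA : 1 ≤ A) (hs : s = 8 * c2 + 8) (hk : 1 ≤ k)
    (hz : 2 ^ k * 16 ≤ 2 ^ z) (hG : G ≤ (2 ^ z) ^ (32 * s * A * c2))
    (hN : N ≤ (2 ^ z) ^ (32 * s * A + 1)) :
    (2 : ℝ) ^ k * (2 * (G : ℝ) ^ 2 * (2 * ((1 / 2) ^ z) ^ (8 * s * A * s)) +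
      (N : ℝ) ^ k * (((1 / 2) ^ z) ^ (4 * A)) ^ (8 * s * k + k)) < 1 := by
  have hw : (2 : ℝ) ^ k * 16 * (1 / 2) ^ z ≤ 1 := by
    have := le_w 0 (show 2 ^ k * 16 ≤ (2 ^ z) ^ 1 by simpa using hz)
    push_cast at this
    simpa using this
  have h1 : (G : ℝ) ^ 2 * ((1 / 2) ^ z) ^ (8 * s * A * s) ≤ (1 / 2) ^ z := by
    have h2 := le_w 1 (show G ^ 2 ≤ (2 ^ z) ^ (32 * s * A * c2 * 2) by
      rw [pow_mul _ _ 2]; exact Nat.pow_le_pow_left hG 2)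
    push_cast at h2
    rw [pow_one] at h2
    refine le_trans (mul_le_mul_of_nonneg_left (w_anti ?_) (by positivity)) h2
    have : 1 ≤ s * A := Nat.mul_pos (by omega) hA
    have : 8 * s * A * s = 32 * s * A * c2 * 2 + 64 * (s * A) := by
      conv_lhs => rw [show 8 * s * A * s = 8 * s * A * (8 * c2 + 8) by rw [← hs]]
      ring
    omega
  have h3 : (N : ℝ) ^ k * (((1 / 2) ^ z) ^ (4 * A)) ^ (8 * s * k + k) ≤ (1 / 2) ^ z := by
    have h2 := le_w 1 (show N ^ k ≤ (2 ^ z) ^ ((32 * s * A + 1) * k) by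
      rw [pow_mul _ _ k]; exact Nat.pow_le_pow_left hN k)
    push_cast at h2
    rw [pow_one] at h2
    rw [← pow_mul _ (4 * A)]
    refine le_trans (mul_le_mul_of_nonneg_left (w_anti ?_) (by positivity)) h2
    have : k ≤ A * k := Nat.le_mul_of_pos_left _ hA
    nlinarith
  have h4 : (0 : ℝ) < 2 ^ k := by positivity
  have h5 : (0 : ℝ) < (1 / 2) ^ z := by positivity
  calc _ ≤ (2 : ℝ) ^ k * (4 * (1 / 2) ^ z + (1 / 2) ^ z) := by
        refine mul_le_mul_of_nonneg_left (add_le_add ?_ h3) h4.le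
        linarith
    _ < 1 := by nlinarith [mul_pos h4 h5]

end Pool.Agent.Lib.MP_ddf912_lc.AC
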