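import Mathlib

namespace Pool.Agent.Lib.MP_ddf912_lc.AC

open Finset

variable {E : Type} [Fintype E] [DecidableEq E]

noncomputable def wt (p : ℝ) (x : E → Bool) : ℝ := ∏ e, if x e then p else 1 - p

noncomputable def Ex (p : ℝ) (F : (E → Bool) → ℝ) : ℝ := ∑ x, wt p x * F x

def merge (s x y : E → Bool) : E → Bool := fun e => if s e then x e else y e

open Classical in
noncomputable def ind (P : Prop) : ℝ := if P then 1 else 0

theorem ind_nonneg (P : Prop) : 0 ≤ ind P := by unfold ind; split_ifs <;> norm_num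
theorem ind_le_one (P : Prop) : ind P ≤ 1 := by unfold ind; split_ifs <;> norm_num
theorem ind_pos {P : Prop} (h : P) : ind P = 1 := by unfold ind; rw [if_pos h]
theorem ind_neg {P : Prop} (h : ¬ P) : ind P = 0 := by unfold ind; rw [if_neg h]
theorem ind_le {P : Prop} {r : ℝ} (h0 : 0 ≤ r) (h : P → 1 ≤ r) : ind P ≤ r := by
  by_cases hP : P
  · rw [ind_pos hP]; exact h hP
  · rw [ind_neg hP]; exact h0
theorem ind_mono {P Q : Prop} (h : P → Q) : ind P ≤ ind Q :=
  ind_le (ind_nonneg _) fun hP => (ind_pos (h hP)).ge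
theorem ind_le_sum {ι : Type*} {P : Prop} (s : Finset ι) (Q : ι → Prop) (h : P → ∃ i ∈ s, Q i) :
    ind P ≤ ∑ i ∈ s, ind (Q i) :=
  ind_le (sum_nonneg fun _ _ => ind_nonneg _) fun hP => by
    obtain ⟨i, hi, hQ⟩ := h hP
    exact (ind_pos hQ).ge.trans (single_le_sum (f := fun i => ind (Q i))
      (fun _ _ => ind_nonneg _) hi)
theorem ind_le_add {P Q R : Prop} (h : P → Q ∨ R) : ind P ≤ ind Q + ind R :=
  ind_le (add_nonneg (ind_nonneg _) (ind_nonneg _)) fun hP => by
    rcases h hP with h | h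
    · rw [ind_pos h]; linarith [ind_nonneg R]
    · rw [ind_pos h]; linarith [ind_nonneg Q]
theorem ind_and (P Q : Prop) : ind (P ∧ Q) = ind P * ind Q := by
  by_cases hP : P <;> by_cases hQ : Q <;> simp [ind, hP, hQ]
theorem ind_not (P : Prop) : ind (¬ P) = 1 - ind P := by
  by_cases hP : P <;> simp [ind, hP]

omit [DecidableEq E] in
theorem wt_nonneg {p : ℝ} (h0 : 0 ≤ p) (h1 : p ≤ 1) (x : E → Bool) : 0 ≤ wt p x :=
  prod_nonneg fun e _ => by split_ifs <;> linarith

theorem Ex_prod (p : ℝ) (φ : E → Bool → ℝ) :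
    Ex p (fun x => ∏ e, φ e (x e)) = ∏ e, (p * φ e true + (1 - p) * φ e false) := by
  have := Finset.prod_univ_sum (fun _ : E => (univ : Finset Bool))
    (fun e b => (if b then p else 1 - p) * φ e b)
  rw [Fintype.piFinset_univ] at this
  unfold Ex wt
  simp_rw [← prod_mul_distrib]
  rw [← this]
  refine prod_congr rfl fun e _ => ?_
  simp

theorem Ex_const (p c : ℝ) : Ex p (fun _ : E → Bool => c) = c := by
  have := Ex_prod (E := E) p (fun _ _ => 1)
  simp only [prod_const_one, mul_one, add_sub_cancel] at this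
  unfold Ex at this ⊢
  simp only [mul_one] at this
  rw [← sum_mul, this, one_mul]

theorem Ex_mono {p : ℝ} (h0 : 0 ≤ p) (h1 : p ≤ 1) {F G : (E → Bool) → ℝ} (h : ∀ x, F x ≤ G x) :
    Ex p F ≤ Ex p G :=
  sum_le_sum fun x _ => mul_le_mul_of_nonneg_left (h x) (wt_nonneg h0 h1 x)

theorem Ex_le {p : ℝ} (h0 : 0 ≤ p) (h1 : p ≤ 1) {F : (E → Bool) → ℝ} {c : ℝ} (h : ∀ x, F x ≤ c) :
    Ex p F ≤ c := (Ex_mono h0 h1 h).trans (Ex_const p c).le

theorem Ex_nonneg {p : ℝ} (h0 : 0 ≤ p) (h1 : p ≤ 1) {F : (E → Bool) → ℝ} (h : ∀ x, 0 ≤ F x) :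
    0 ≤ Ex p F := (Ex_const p 0).ge.trans (Ex_mono h0 h1 h)

theorem Ex_add (p : ℝ) (F G : (E → Bool) → ℝ) : Ex p (fun x => F x + G x) = Ex p F + Ex p G := by
  unfold Ex; simp_rw [mul_add, sum_add_distrib]

theorem Ex_sub (p : ℝ) (F G : (E → Bool) → ℝ) : Ex p (fun x => F x - G x) = Ex p F - Ex p G := by
  unfold Ex; simp_rw [mul_sub, sum_sub_distrib]

theorem Ex_mul_left (p c : ℝ) (F : (E → Bool) → ℝ) : Ex p (fun x => c * F x) = c * Ex p F := by
  unfold Ex; rw [mul_sum]; exact sum_congr rfl fun x _ => by ring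

theorem Ex_mul_right (p c : ℝ) (F : (E → Bool) → ℝ) : Ex p (fun x => F x * c) = Ex p F * c := by
  unfold Ex; rw [sum_mul]; exact sum_congr rfl fun x _ => by ring

theorem Ex_sum {ι : Type*} (p : ℝ) (s : Finset ι) (F : ι → (E → Bool) → ℝ) :
    Ex p (fun x => ∑ i ∈ s, F i x) = ∑ i ∈ s, Ex p (F i) := by
  unfold Ex; simp_rw [mul_sum]; rw [sum_comm]

theorem Ex_comm (p q : ℝ) (F : (E → Bool) → (E → Bool) → ℝ) :
    Ex p (fun x => Ex q (fun y => F x y)) = Ex q (fun y => Ex p (fun x => F x y)) := by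
  unfold Ex; simp_rw [mul_sum]; rw [sum_comm]
  exact sum_congr rfl fun y _ => sum_congr rfl fun x _ => by ring

theorem Ex_merge (p : ℝ) (s : E → Bool) (F : (E → Bool) → ℝ) :
    Ex p (fun x => Ex p (fun y => F (merge s x y))) = Ex p F := by
  let σ : (E → Bool) × (E → Bool) → (E → Bool) × (E → Bool) :=
    fun z => (merge s z.1 z.2, merge s z.2 z.1)
  have hσ : Function.Involutive σ := by
    rintro ⟨x, y⟩
    simp only [σ, Prod.mk.injEq]
    constructor <;> (funext e; simp only [merge]; split_ifs <;> rfl)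
  have hw : ∀ z, wt p (σ z).1 * wt p (σ z).2 = wt p z.1 * wt p z.2 := by
    rintro ⟨x, y⟩
    simp only [σ, wt, ← prod_mul_distrib]
    refine prod_congr rfl fun e _ => ?_
    simp only [merge]
    by_cases h : s e = true
    · simp only [h, if_true]
    · simp only [h]; simp [mul_comm]
  have h1 : Ex p (fun x => Ex p (fun y => F (merge s x y))) =
      ∑ z : (E → Bool) × (E → Bool), wt p (σ z).1 * wt p (σ z).2 * F (σ z).1 := by
    unfold Ex
    rw [Fintype.sum_prod_type]
    refine sum_congr rfl fun x _ => ?_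
    rw [mul_sum]
    refine sum_congr rfl fun y _ => ?_
    rw [hw]; simp only [σ]; ring
  have h2 := Equiv.sum_comp hσ.toPerm (fun z => wt p z.1 * wt p z.2 * F z.1)
  simp only [Function.Involutive.coe_toPerm] at h2
  rw [h1, h2, Fintype.sum_prod_type]
  have := Ex_const (E := E) p 1
  unfold Ex at this ⊢
  refine sum_congr rfl fun x _ => ?_
  simp only [mul_one] at this
  simp_rw [mul_right_comm (wt p x) _ (F x)]
  rw [← mul_sum, this, mul_one]

theorem Ex_indep (p : ℝ) (Y : Set E) {F G : (E → Bool) → ℝ} (hF : DependsOn F Y)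
    (hG : DependsOn G Yᶜ) : Ex p (fun x => F x * G x) = Ex p F * Ex p G := by
  classical
  rw [← Ex_merge p (fun e => decide (e ∈ Y))]
  have : ∀ x y, F (merge (fun e => decide (e ∈ Y)) x y) * G (merge (fun e => decide (e ∈ Y)) x y)
      = F x * G y := by
    intro x y
    congr 1
    · exact hF fun e he => by simp [merge, he]
    · exact hG fun e he => by
        have : e ∉ Y := he
        simp [merge, this]
  simp_rw [this, Ex_mul_left, Ex_mul_right]

theorem Ex_all (p : ℝ) (K : Finset E) : Ex p (fun x => ind (∀ e ∈ K, x e = true)) = p ^ K.card := by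
  have h := Ex_prod p (fun e b => if e ∈ K then (if b then (1 : ℝ) else 0) else 1)
  have h1 : ∀ x : E → Bool, (∏ e, if e ∈ K then (if x e then (1 : ℝ) else 0) else 1) =
      ind (∀ e ∈ K, x e = true) := by
    intro x
    by_cases hx : ∀ e ∈ K, x e = true
    · rw [ind_pos hx]
      exact prod_eq_one fun e _ => by
        by_cases he : e ∈ K
        · simp [he, hx e he]
        · simp [he]
    · rw [ind_neg hx]
      push Not at hx
      obtain ⟨e, he, hxe⟩ := hx
      exact prod_eq_zero (mem_univ e) (by simp [he, hxe])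
  simp_rw [h1] at h
  rw [h]
  have : ∀ e, (p * (if e ∈ K then (if true = true then (1 : ℝ) else 0) else 1) +
      (1 - p) * (if e ∈ K then (if false = true then (1 : ℝ) else 0) else 1)) =
      if e ∈ K then p else 1 := by
    intro e; by_cases he : e ∈ K <;> simp [he]
  rw [prod_congr rfl (fun e _ => by simpa using this e :
    ∀ e ∈ (univ : Finset E), _ = if e ∈ K then p else 1)]
  rw [prod_ite_mem, univ_inter, prod_const]

theorem Ex_match {p μ : ℝ} (hμ : 0 ≤ μ) (h0 : μ ≤ p) (h1 : μ ≤ 1 - p) (K : Finset E)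
    (τ : E → Bool) : μ ^ K.card ≤ Ex p (fun x => ind (∀ e ∈ K, x e = τ e)) := by
  have h := Ex_prod p (fun e b => if e ∈ K then (if b = τ e then (1 : ℝ) else 0) else 1)
  have h1' : ∀ x : E → Bool, (∏ e, if e ∈ K then (if x e = τ e then (1 : ℝ) else 0) else 1) =
      ind (∀ e ∈ K, x e = τ e) := by
    intro x
    by_cases hx : ∀ e ∈ K, x e = τ e
    · rw [ind_pos hx]
      exact prod_eq_one fun e _ => by
        by_cases he : e ∈ K
        · simp [he, hx e he]
        · simp [he]
    · rw [ind_neg hx]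
      push Not at hx
      obtain ⟨e, he, hxe⟩ := hx
      exact prod_eq_zero (mem_univ e) (by simp [he, hxe])
  simp_rw [h1'] at h
  rw [h]
  have e1 : μ ^ K.card = ∏ e, if e ∈ K then μ else 1 := by
    rw [prod_ite_mem, univ_inter, prod_const]
  rw [e1]
  refine prod_le_prod (fun e _ => by split_ifs <;> linarith) fun e _ => ?_
  by_cases he : e ∈ K
  · cases hτ : τ e <;> simp [he, h0, h1]
  · simp [he]

theorem Ex_stars {q : ℝ} (h0 : 0 ≤ q) (h1 : q ≤ 1) (Y : Finset E) (j : ℕ) :
    Ex q (fun s => ind (j ≤ #{e ∈ Y | s e = true})) ≤ (Y.card * q) ^ j := by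
  calc _ ≤ Ex q (fun s => ∑ U ∈ powersetCard j Y, ind (∀ e ∈ U, s e = true)) := by
        refine Ex_mono h0 h1 fun s => ind_le_sum _ _ fun h => ?_
        obtain ⟨U, hU, hc⟩ := exists_subset_card_eq h
        exact ⟨U, mem_powersetCard.mpr ⟨hU.trans (filter_subset _ _), hc⟩,
          fun e he => (mem_filter.mp (hU he)).2⟩
    _ = ∑ U ∈ powersetCard j Y, q ^ j := by
        rw [Ex_sum]
        exact sum_congr rfl fun U hU => by rw [Ex_all, (mem_powersetCard.mp hU).2]
    _ = (Y.card.choose j : ℝ) * q ^ j := by rw [sum_const, card_powersetCard, nsmul_eq_mul]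
    _ ≤ _ := by
        rw [mul_pow]
        refine mul_le_mul_of_nonneg_right ?_ (pow_nonneg h0 _)
        exact_mod_cast Nat.choose_le_pow _ _

theorem Ex_prod_disj {ι : Type*} [DecidableEq ι] (p : ℝ) (A : Finset ι) (J : ι → Finset E)
    (F : ι → (E → Bool) → ℝ) (hF : ∀ a ∈ A, DependsOn (F a) (J a : Set E))
    (hd : ∀ a ∈ A, ∀ b ∈ A, a ≠ b → Disjoint (J a) (J b)) :
    Ex p (fun x => ∏ a ∈ A, F a x) = ∏ a ∈ A, Ex p (F a) := by
  induction A using Finset.induction_on with
  | empty => simp [Ex_const]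
  | insert a A ha ih =>
    simp_rw [prod_insert ha]
    rw [Ex_indep p (J a : Set E) (hF a (mem_insert_self _ _)),
      ih (fun b hb => hF b (mem_insert_of_mem hb))
        (fun b hb c hc => hd b (mem_insert_of_mem hb) c (mem_insert_of_mem hc))]
    intro x y hxy
    refine prod_congr rfl fun b hb => hF b (mem_insert_of_mem hb) fun e he => hxy e ?_
    intro he'
    exact Finset.disjoint_left.mp (hd a (mem_insert_self _ _) b (mem_insert_of_mem hb)
      (fun h => ha (h ▸ hb))) he' he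

end Pool.Agent.Lib.MP_ddf912_lc.AC
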