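import Pool.Agent.Lib.MP_ddf912_lc.AC.Collapse

namespace Pool.Agent.Lib.MP_ddf912_lc.AC

open Finset

variable {V : Type} [Fintype V] [DecidableEq V] {k n : ℕ}

def Kq (pt : Fin k → Fin n → V) (a : Fin k → Fin n) (I : Finset (Fin k)) : Finset (Sym2 V) :=
  (I.image fun i => pt i (a i)).sym2

def plant (pt : Fin k → Fin n → V) (x : Sym2 V → Bool) (a : Fin k → Fin n) (I : Finset (Fin k)) :
    Sym2 V → Bool := fun e => x e || decide (e ∈ Kq pt a I)

def Small {β : Type} (pt : Fin k → Fin n → V) (s : ℕ) (f : (Sym2 V → Bool) → β)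
    (x : Sym2 V → Bool) (a : Fin k → Fin n) : Prop :=
  ∃ J : Finset (Fin k), J.card ≤ s ∧ ∀ I, f (plant pt x a I) = f (plant pt x a (I ∩ J))

def Sens {β : Type} (pt : Fin k → Fin n → V) (f : (Sym2 V → Bool) → β)
    (x : Sym2 V → Bool) (a : Fin k → Fin n) (R : Finset (Fin k)) : Prop :=
  ∀ j ∈ R, ∃ x1 x2 : Sym2 V → Bool, (∀ e ∉ Kq pt a R, x1 e = x e) ∧ (∀ e ∉ Kq pt a R, x2 e = x e) ∧
    (∀ e, pt j (a j) ∉ e → x1 e = x2 e) ∧ f x1 ≠ f x2

def Med {β : Type} (pt : Fin k → Fin n → V) (s : ℕ) (f : (Sym2 V → Bool) → β)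
    (x : Sym2 V → Bool) (a : Fin k → Fin n) : Prop :=
  ∃ R : Finset (Fin k), (s < R.card ∧ R.card ≤ 2 * s) ∧ Sens pt f x a R

variable {pt : Fin k → Fin n → V}

omit [Fintype V] in
theorem mem_Kq {a : Fin k → Fin n} {I : Finset (Fin k)} {e : Sym2 V} :
    e ∈ Kq pt a I ↔ ∀ v ∈ e, ∃ i ∈ I, pt i (a i) = v := by
  simp only [Kq, mem_sym2_iff, mem_image]

omit [Fintype V] in
theorem Kq_mono {a : Fin k → Fin n} {I J : Finset (Fin k)} (h : I ⊆ J) : Kq pt a I ⊆ Kq pt a J :=
  fun _ he => mem_Kq.mpr fun v hv => by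
    obtain ⟨i, hi, h'⟩ := mem_Kq.mp he v hv
    exact ⟨i, h hi, h'⟩

omit [Fintype V] in
theorem card_Kq (a : Fin k → Fin n) (I : Finset (Fin k)) : (Kq pt a I).card ≤ I.card * I.card := by
  unfold Kq
  rw [card_sym2]
  have h1 : (I.image fun i => pt i (a i)).card ≤ I.card := card_image_le
  refine (Nat.choose_le_choose 2 (Nat.succ_le_succ h1)).trans ?_
  rw [Nat.choose_two_right]
  simp only [Nat.succ_sub_one]
  rcases Nat.eq_zero_or_pos I.card with h | h
  · simp [h]
  · apply Nat.div_le_of_le_mul; simp only [Nat.succ_eq_add_one]; nlinarith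

omit [Fintype V] in
theorem small_step {β β1 β2 : Type} {s : ℕ} {f : (Sym2 V → Bool) → β} {f1 : (Sym2 V → Bool) → β1}
    {f2 : (Sym2 V → Bool) → β2} {x : Sym2 V → Bool} {a : Fin k → Fin n}
    (h1 : Small pt s f1 x a) (h2 : Small pt s f2 x a)
    (hf : ∀ y z, f1 y = f1 z → f2 y = f2 z → f y = f z) (hm : ¬ Med pt s f x a) :
    Small pt s f x a := by
  classical
  obtain ⟨J1, hc1, h1⟩ := h1
  obtain ⟨J2, hc2, h2⟩ := h2
  let P : Finset (Fin k) → Prop := fun J => ∀ I, f (plant pt x a I) = f (plant pt x a (I ∩ J))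
  have hP : P (J1 ∪ J2) := fun I => hf _ _
    (by rw [h1 I, h1 (I ∩ (J1 ∪ J2)), inter_assoc, union_inter_cancel_left])
    (by rw [h2 I, h2 (I ∩ (J1 ∪ J2)), inter_assoc, union_inter_cancel_right])
  obtain ⟨J, hJ, hmin⟩ := exists_min_image (univ.filter P) card ⟨_, mem_filter.mpr ⟨mem_univ _, hP⟩⟩
  have hPJ : P J := (mem_filter.mp hJ).2
  have hc : J.card ≤ 2 * s := by
    have := hmin _ (mem_filter.mpr ⟨mem_univ _, hP⟩)
    have := card_union_le J1 J2
    omega
  refine ⟨J, ?_, hPJ⟩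
  by_contra hs
  refine hm ⟨J, ⟨by omega, hc⟩, fun j hj => ?_⟩
  have : ¬ P (J.erase j) := fun h => by
    have := hmin _ (mem_filter.mpr ⟨mem_univ _, h⟩)
    rw [card_erase_of_mem hj] at this
    omega
  simp only [P, not_forall] at this
  obtain ⟨I, hI⟩ := this
  refine ⟨plant pt x a (I ∩ J), plant pt x a (I ∩ J.erase j), fun e he => ?_, fun e he => ?_,
    fun e he => ?_, by rw [← hPJ I]; exact hI⟩
  · have : e ∉ Kq pt a (I ∩ J) := fun h => he (Kq_mono inter_subset_right h)
    simp [plant, this]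
  · have : e ∉ Kq pt a (I ∩ J.erase j) := fun h =>
      he (Kq_mono (inter_subset_right.trans (erase_subset _ _)) h)
    simp only [plant, this, decide_false, Bool.or_false]
  · have : e ∈ Kq pt a (I ∩ J) ↔ e ∈ Kq pt a (I ∩ J.erase j) := by
      refine ⟨fun h => mem_Kq.mpr fun v hv => ?_,
        fun h => Kq_mono (inter_subset_inter_left (erase_subset _ _)) h⟩
      obtain ⟨i, hi, h'⟩ := mem_Kq.mp h v hv
      refine ⟨i, mem_inter.mpr ⟨(mem_inter.mp hi).1, mem_erase.mpr ⟨?_, (mem_inter.mp hi).2⟩⟩, h'⟩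
      rintro rfl
      exact he (h' ▸ hv)
    simp only [plant, this]

def vs (J : Finset (Sym2 V)) : Finset V := J.biUnion fun e => univ.filter (· ∈ e)

theorem card_vs (J : Finset (Sym2 V)) : (vs J).card ≤ 2 * J.card := by
  rw [mul_comm]
  refine card_biUnion_le_card_mul _ _ _ fun e _ => ?_
  induction e using Sym2.ind with
  | h u v =>
    refine le_trans (card_le_card (t := {u, v}) fun w hw => ?_) card_le_two
    simpa using hw

theorem mem_vs {J : Finset (Sym2 V)} {v : V} : v ∈ vs J ↔ ∃ e ∈ J, v ∈ e := by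
  simp [vs]

theorem small_of_jun (hpt : ∀ i i' b b', pt i b = pt i' b' → i = i' ∧ b = b') {β : Type} {s : ℕ}
    (hs : 2 ≤ s) {f : (Sym2 V → Bool) → β} (hf : Jun 1 f) (x : Sym2 V → Bool)
    (a : Fin k → Fin n) : Small pt s f x a := by
  obtain ⟨J, h1, h2⟩ := hf
  refine ⟨univ.filter fun i => pt i (a i) ∈ vs J, ?_, fun I => h2 fun e he => ?_⟩
  · refine le_trans (card_le_card_of_injOn (t := vs J) (fun i => pt i (a i)) (fun i hi => ?_)
      fun i _ i' _ h => (hpt _ _ _ _ h).1) ((card_vs J).trans (by omega))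
    simpa using hi
  · have : e ∈ Kq pt a I ↔ e ∈ Kq pt a (I ∩ univ.filter fun i => pt i (a i) ∈ vs J) := by
      refine ⟨fun h => mem_Kq.mpr fun v hv => ?_, fun h => Kq_mono inter_subset_left h⟩
      obtain ⟨i, hi, h'⟩ := mem_Kq.mp h v hv
      exact ⟨i, mem_inter.mpr ⟨hi, mem_filter.mpr ⟨mem_univ _,
        mem_vs.mpr ⟨e, he, h' ▸ hv⟩⟩⟩, h'⟩
    simp only [plant, this]

noncomputable def Gx {E : Type} [Fintype E] [DecidableEq E] (p : ℝ) (P : (E → Bool) → Prop) : ℝ :=
  E2 p fun L y => ind (P (merge L y fun _ => false))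

noncomputable def Phi {E : Type} [Fintype E] [DecidableEq E] (K : Finset E)
    (P : (E → Bool) → Prop) (U x : E → Bool) : ℝ :=
  ind (∀ e ∈ K, U e = true) * Ex (1 / 2) fun y => ind (P (merge U y x))

theorem T_Phi {E : Type} [Fintype E] [DecidableEq E] (q : ℝ) (K : Finset E)
    (P : (E → Bool) → Prop) : T q (Phi K P) = fun U x => q ^ K.card * Phi K P U x + 0 := by
  funext U x
  unfold T E2 Phi
  simp_rw [Ex_mul_left, merge_band]
  have h1 : ∀ s : E → Bool, Ex (1 / 2) (fun x' => Ex (1 / 2) fun y =>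
      ind (P (merge U (merge s y x') x))) = Ex (1 / 2) fun y => ind (P (merge U y x)) := by
    intro s
    rw [Ex_comm]
    exact Ex_merge (1 / 2) s fun y => ind (P (merge U y x))
  have h2 : ∀ s : E → Bool, ind (∀ e ∈ K, band U s e = true) =
      ind (∀ e ∈ K, U e = true) * ind (∀ e ∈ K, s e = true) := by
    intro s
    rw [← ind_and]
    congr 1
    simp only [band, Bool.and_eq_true]
    exact propext ⟨fun h => ⟨fun e he => (h e he).1, fun e he => (h e he).2⟩,
      fun h e he => ⟨h.1 e he, h.2 e he⟩⟩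
  simp_rw [h1, h2]
  rw [Ex_mul_right, Ex_mul_left, Ex_all]
  ring

theorem T_iter_Phi {E : Type} [Fintype E] [DecidableEq E] (q : ℝ) (K : Finset E)
    (P : (E → Bool) → Prop) (D : ℕ) (U x : E → Bool) :
    (T q)^[D] (Phi K P) U x = (q ^ D) ^ K.card * Phi K P U x := by
  induction D with
  | zero => simp
  | succ D ih =>
    rw [Function.iterate_succ, Function.comp, T_Phi, T_iter_affine]
    simp only [ih]
    rw [pow_succ, mul_pow]; ring

theorem Ex_Phi {E : Type} [Fintype E] [DecidableEq E] (p : ℝ) (K : Finset E)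
    (P : (E → Bool) → Prop) (hP : ∀ x y, (∀ e ∉ K, x e = y e) → P x = P y) :
    Ex p (fun L => Phi K P L fun _ => false) = p ^ K.card * Gx p P := by
  unfold Phi Gx E2
  rw [Ex_indep p (K : Set E), Ex_all]
  · intro x y hxy
    have : (∀ e ∈ K, x e = true) ↔ ∀ e ∈ K, y e = true :=
      forall₂_congr fun e he => by rw [hxy e he]
    simp only [this]
  · intro x y hxy
    simp only
    congr 1; funext z
    rw [hP _ _ fun e he => ?_]
    simp only [merge, hxy e he]

omit [Fintype V] in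
theorem count_bound (hpt : ∀ i i' b b', pt i b = pt i' b' → i = i' ∧ b = b') (hn : 0 < n)
    (R : Finset (Fin k)) (W : Finset V) (C : ℕ) (hW : W.card ≤ C) :
    ∑ a : Fin k → Fin n, ind (∀ j ∈ R, pt j (a j) ∈ W) ≤ n ^ k * (C / n : ℝ) ^ R.card := by
  classical
  have hn' : (0 : ℝ) < n := by exact_mod_cast hn
  have h1 : ∀ a : Fin k → Fin n, ind (∀ j ∈ R, pt j (a j) ∈ W) =
      ∏ j, if j ∈ R then ind (pt j (a j) ∈ W) else 1 := by
    intro a
    by_cases h : ∀ j ∈ R, pt j (a j) ∈ W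
    · rw [ind_pos h]
      exact (prod_eq_one fun j _ => by
        by_cases hj : j ∈ R
        · rw [if_pos hj, ind_pos (h j hj)]
        · rw [if_neg hj]).symm
    · rw [ind_neg h]
      push Not at h
      obtain ⟨j, hj, h⟩ := h
      exact (prod_eq_zero (mem_univ j) (by rw [if_pos hj, ind_neg h])).symm
  simp_rw [h1]
  have h2 := Finset.prod_univ_sum (fun _ : Fin k => (univ : Finset (Fin n)))
    (fun j b => if j ∈ R then ind (pt j b ∈ W) else 1)
  rw [Fintype.piFinset_univ] at h2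
  rw [← h2]
  have h3 : (n : ℝ) ^ k * (C / n : ℝ) ^ R.card = ∏ j : Fin k, (n * if j ∈ R then (C / n : ℝ) else 1) := by
    rw [prod_mul_distrib, prod_const, card_univ, Fintype.card_fin, prod_ite_mem, univ_inter,
      prod_const]
  rw [h3]
  refine prod_le_prod (fun j _ => sum_nonneg fun b _ => ?_) fun j _ => ?_
  · split_ifs
    · exact ind_nonneg _
    · norm_num
  · by_cases hj : j ∈ R
    · simp only [hj, if_true]
      rw [mul_div_cancel₀ _ hn'.ne']
      have : ∑ b : Fin n, ind (pt j b ∈ W) = (univ.filter fun b => pt j b ∈ W).card := by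
        rw [card_filter]; push_cast
        exact sum_congr rfl fun b _ => by unfold ind; congr
      rw [this]
      have : (univ.filter fun b => pt j b ∈ W).card ≤ W.card :=
        card_le_card_of_injOn (pt j) (fun b hb => by simpa using hb)
          fun b _ b' _ h => (hpt _ _ _ _ h).2
      exact_mod_cast this.trans hW
    · simp [hj]

theorem key_bound (hpt : ∀ i i' b b', pt i b = pt i' b' → i = i' ∧ b = b') (hn : 0 < n)
    {β : Type} {p q δ : ℝ} {D C : ℕ} (hp0 : 0 ≤ p) (hp1 : p ≤ 1) (hq0 : 0 ≤ q) (hq1 : q ≤ 1)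
    {f : (Sym2 V → Bool) → β} (hf : Good q δ D C f) (R : Finset (Fin k)) :
    (p * q ^ D) ^ (R.card * R.card) * ∑ a, Gx p (fun x => Sens pt f x a R) ≤
      n ^ k * (((2 * C : ℕ) / n : ℝ) ^ R.card + δ) := by
  have hn' : (0 : ℝ) < n := by exact_mod_cast hn
  have h1 : ∀ U x, ∑ a, Phi (Kq pt a R) (fun x => Sens pt f x a R) U x ≤
      n ^ k * ind (¬ Jun C (res f U x)) + n ^ k * ((2 * C : ℕ) / n : ℝ) ^ R.card := by
    intro U x
    have hΦ : ∀ a, Phi (Kq pt a R) (fun x => Sens pt f x a R) U x ≤ 1 := fun a =>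
      mul_le_one₀ (ind_le_one _) (Ex_nonneg (by norm_num) (by norm_num) fun _ => ind_nonneg _)
        (Ex_le (by norm_num) (by norm_num) fun _ => ind_le_one _)
    by_cases hJ : Jun C (res f U x)
    · rw [ind_neg (not_not.mpr hJ), mul_zero, zero_add]
      obtain ⟨J, hc, hJ⟩ := hJ
      refine le_trans (sum_le_sum fun a _ => ?_)
        (count_bound hpt hn R (vs J) (2 * C) ((card_vs J).trans (by omega)))
      unfold Phi
      by_cases hK : ∀ e ∈ Kq pt a R, U e = true
      · rw [ind_pos hK, one_mul]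
        refine Ex_le (by norm_num) (by norm_num) fun y => ind_mono fun hs j hj => ?_
        obtain ⟨x1, x2, e1, e2, e3, e4⟩ := hs j hj
        by_contra hv
        apply e4
        have m : ∀ z : Sym2 V → Bool, (∀ e ∉ Kq pt a R, z e = merge U y x e) → merge U z x = z := by
          intro z hz; funext e
          by_cases hU : U e = true
          · simp [merge, hU]
          · have := hz e fun he => hU (hK e he)
            simp [merge, hU] at this ⊢
            exact this.symm
        have : res f U x x1 = res f U x x2 :=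
          hJ fun e he => e3 e fun hm => hv (mem_vs.mpr ⟨e, he, hm⟩)
        simpa only [res, m x1 e1, m x2 e2] using this
      · rw [ind_neg hK, zero_mul]; exact ind_nonneg _
    · rw [ind_pos hJ, mul_one]
      refine (sum_le_sum fun a _ => hΦ a).trans ?_
      rw [sum_const, card_univ, nsmul_eq_mul, mul_one, Fintype.card_fun, Fintype.card_fin,
        Fintype.card_fin]
      push_cast
      have : (0 : ℝ) ≤ n ^ k * (2 * C / n : ℝ) ^ R.card := by positivity
      linarith
  have h2 : ∀ U x, ∑ a, (q ^ D) ^ (Kq pt a R).card *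
      Phi (Kq pt a R) (fun x => Sens pt f x a R) U x ≤
      n ^ k * (((2 * C : ℕ) / n : ℝ) ^ R.card + δ) := by
    intro U x
    have := T_iter_mono hq0 hq1 D h1 U x
    rw [T_iter_sum, T_iter_affine] at this
    simp only [T_iter_Phi] at this
    refine this.trans ?_
    have := mul_le_mul_of_nonneg_left (hf U x) (pow_nonneg hn'.le k)
    linarith
  have h3 := Ex_le hp0 hp1 fun L => h2 L fun _ => false
  refine le_trans ?_ h3
  rw [Ex_sum, mul_sum]
  refine sum_le_sum fun a _ => ?_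
  rw [Ex_mul_left, Ex_Phi, ← mul_assoc, ← mul_pow, mul_comm (q ^ D) p]
  · refine mul_le_mul_of_nonneg_right (pow_le_pow_of_le_one (by positivity) ?_ (card_Kq a R)) ?_
    · exact mul_le_one₀ hp1 (by positivity) (pow_le_one₀ hq0 hq1)
    · exact Ex_nonneg hp0 hp1 fun _ => Ex_nonneg (by norm_num) (by norm_num) fun _ => ind_nonneg _
  · intro x y hxy
    have : ∀ z : Sym2 V → Bool, (∀ e ∉ Kq pt a R, z e = x e) ↔ ∀ e ∉ Kq pt a R, z e = y e :=
      fun z => forall₂_congr fun e he => by rw [hxy e he]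
    simp only [Sens, this]

end Pool.Agent.Lib.MP_ddf912_lc.AC
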