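import Pool.Agent.Lib.MP_ddf912_lc.AC.Hash
import Pool.Agent.Lib.MP_ddf912_lc.AC.Core

namespace Pool.Agent.Lib.MP_ddf912_lc.AC

open Finset

theorem or_pos {E Γ : Type} {F : Γ → (E → Bool) → Prop} {γ : Γ} {A : Set (Γ × Bool)}
    (h : ∀ x, F γ x ↔ orF F A x) (x y : E → Bool) (e : orF F A x = orF F A y) : F γ x = F γ y := by
  rw [propext (h x), propext (h y), e]

theorem or_neg {E Γ : Type} {F : Γ → (E → Bool) → Prop} {γ : Γ} {A : Set (Γ × Bool)}
    (h : ∀ x, F γ x ↔ ¬ orF F A x) (x y : E → Bool) (e : orF F A x = orF F A y) :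
    F γ x = F γ y := by
  rw [propext (h x), propext (h y), e]

theorem sim {N k d g D B H r : ℕ} (C : Circuit (Fin N × Fin N)) (hD : ∀ i, C.level i ≤ D)
    (hC : C.Decides k d g) (hB : C.m * (2 * C.M + 1) ≤ 2 ^ B)
    (hH : 2 * (g * B * (g * B)) < H) (hr : (C.M + 1) ^ (g * B) < 2 ^ r) :
    ∃ (Γ : Type) (_ : Fintype Γ) (F : Γ → (Sym2 (Fin N) → Bool) → Prop) (lv : Γ → ℕ) (out : Γ),
      NetOK F lv (r * (2 * H + 1) ^ d) ∧ (∀ γ, lv γ ≤ 3 * D + 3) ∧ (∀ x, F out x ↔ HasClq k x) ∧
      Fintype.card Γ = N * N + C.n + C.n * (r * (2 * H + 1) ^ d) * C.m +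
        C.n * (r * (2 * H + 1) ^ d) := by
  classical
  obtain ⟨h, hh⟩ := perfect hH hr
  choose W hW1 hW2 hW3 hW4 using hC
  let G : (Sym2 (Fin N) → Bool) → SimpleGraph (Fin N) :=
    fun x => SimpleGraph.fromEdgeSet {e | x e = true}
  let U := Fin r × (Fin d → Option (Fin H × Bool))
  have hU : Fintype.card U = r * (2 * H + 1) ^ d := by
    simp [U, mul_comm]
  let a1 : Fin C.n → U → Fin C.m → (Sym2 (Fin N) → Bool) → Prop := fun i u a x =>
    C.kind i = Gate.query ∧ W (G x) (C.used i a) ∧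
      ∀ l, W (G x) (C.lit i a l) → ∃ t, u.2 t = some (h u.1 l.1, l.2)
  let Γ := ((Fin N × Fin N) ⊕ Fin C.n) ⊕ ((Fin C.n × U × Fin C.m) ⊕ (Fin C.n × U))
  let F : Γ → (Sym2 (Fin N) → Bool) → Prop := Sum.elim (fun u x => W (G x) u)
    (Sum.elim (fun z x => a1 z.1 z.2.1 z.2.2 x) (fun z x => ∃ a, a1 z.1 z.2 a x))
  let lv : Γ → ℕ := Sum.elim (Sum.elim (fun _ => 0) fun i => 3 * C.level i + 3)
    (Sum.elim (fun z => 3 * C.level z.1 + 1) fun z => 3 * C.level z.1 + 2)
  have hlv : ∀ (i : Fin C.n) (u : (Fin N × Fin N) ⊕ Fin C.n),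
      (∀ j, u = Sum.inr j → C.level j < C.level i) → lv (Sum.inl u) < 3 * C.level i + 1 := by
    rintro i (u | j) hu
    · simp [lv]
    · have := hu j rfl
      simp only [lv, Sum.elim_inl, Sum.elim_inr]
      omega
  refine ⟨Γ, inferInstance, F, lv, Sum.inl (Sum.inr C.out), ?_, ?_, ?_, ?_⟩
  · rintro ((⟨a, b⟩ | i) | (⟨i, u, a⟩ | ⟨i, u⟩))
    · refine Or.inl ⟨{s(a, b)}, by simp, fun x y hxy => ?_⟩
      have := hxy s(a, b) (by simp)
      simp only [F, Sum.elim_inl, hW1, G, SimpleGraph.fromEdgeSet_adj, Set.mem_ofPred_eq, this]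
    · have hl : ∀ u ∈ C.ins i, lv (Sum.inl u) < lv (Sum.inl (Sum.inr i)) := fun u hu =>
        (hlv i u fun j hj => C.ins_lt i j (hj ▸ hu)).trans_le (by simp [lv])
      cases hk : C.kind i with
      | conj =>
        refine Or.inr (Or.inl ⟨{c | ∃ u ∈ C.ins i, c = (Sum.inl u, false)}, ?_, or_neg fun x => ?_⟩)
        · rintro _ ⟨u, hu, rfl⟩; exact hl u hu
        · simp only [F, Sum.elim_inl, hW2, Circuit.gateVal, hk, orF, Set.mem_ofPred_eq]
          constructor
          · rintro h1 ⟨_, ⟨u, hu, rfl⟩, h2⟩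
            simpa using h2.mp (h1 u hu)
          · intro h1 u hu
            by_contra h2
            exact h1 ⟨_, ⟨u, hu, rfl⟩, by simpa using h2⟩
      | disj =>
        refine Or.inr (Or.inl ⟨{c | ∃ u ∈ C.ins i, c = (Sum.inl u, true)}, ?_, or_pos fun x => ?_⟩)
        · rintro _ ⟨u, hu, rfl⟩; exact hl u hu
        · simp only [F, Sum.elim_inl, hW2, Circuit.gateVal, hk, orF, Set.mem_ofPred_eq]
          constructor
          · rintro ⟨u, hu, h2⟩
            exact ⟨_, ⟨u, hu, rfl⟩, by simpa using h2⟩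
          · rintro ⟨_, ⟨u, hu, rfl⟩, h2⟩
            exact ⟨u, hu, by simpa using h2⟩
      | nor =>
        refine Or.inr (Or.inl ⟨{c | ∃ u ∈ C.ins i, c = (Sum.inl u, true)}, ?_, or_neg fun x => ?_⟩)
        · rintro _ ⟨u, hu, rfl⟩; exact hl u hu
        · simp only [F, Sum.elim_inl, hW2, Circuit.gateVal, hk, orF, Set.mem_ofPred_eq]
          constructor
          · rintro h1 ⟨_, ⟨u, hu, rfl⟩, h2⟩
            exact h1 u hu (by simpa using h2)
          · intro h1 u hu h2
            exact h1 ⟨_, ⟨u, hu, rfl⟩, by simpa using h2⟩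
      | query =>
        refine Or.inr (Or.inr ⟨univ.image fun u : U => (Sum.inr (Sum.inr (i, u)) : Γ),
          card_image_le.trans (by rw [card_univ, hU]), ?_, fun x y hxy => ?_⟩)
        · intro c hc
          obtain ⟨u, -, rfl⟩ := mem_image.mp hc
          simp [lv]
        · have key : ∀ x, F (Sum.inl (Sum.inr i)) x ↔ ∃ (t : Fin r) (θ : Fin H → Bool),
              ∀ κ : Fin d → Option (Fin H × Bool), F (Sum.inr (Sum.inr (i, (t, κ)))) x →
                ∃ l : Fin H × Bool, (∃ i, κ i = some l) ∧ θ l.1 = l.2 := by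
            intro x
            simp only [F, Sum.elim_inl, Sum.elim_inr, hW2, Circuit.gateVal, hk]
            rw [sat_hash hh _ (hW3 (G x) i hk).1 (vars_le C _ i hB (hW3 (G x) i hk).2)]
            refine exists_congr fun t => exists_congr fun θ => forall_congr' fun κ =>
              imp_congr_left ?_
            simp only [a1, Circuit.cnf, hk, true_and]
            constructor
            · rintro ⟨c, hc, h1⟩
              obtain ⟨a, ha, rfl⟩ := mem_image.mp hc
              exact ⟨a, (mem_filter.mp ha).2, fun l hl => h1 l (mem_filter.mpr ⟨mem_univ _, hl⟩)⟩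
            · rintro ⟨a, ha, h1⟩
              exact ⟨_, mem_image.mpr ⟨a, mem_filter.mpr ⟨mem_univ _, ha⟩, rfl⟩,
                fun l hl => h1 l (mem_filter.mp hl).2⟩
          have h2 : ∀ u : U, F (Sum.inr (Sum.inr (i, u))) x = F (Sum.inr (Sum.inr (i, u))) y := by
            intro u
            have := congrFun hxy (Sum.inr (Sum.inr (i, u)))
            have hm : (Sum.inr (Sum.inr (i, u)) : Γ) ∈
                univ.image fun u : U => (Sum.inr (Sum.inr (i, u)) : Γ) :=
              mem_image_of_mem _ (mem_univ u)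
            simpa only [tupF, hm, true_and] using this
          rw [propext (key x), propext (key y)]
          simp only [h2]
    · by_cases hk : C.kind i = Gate.query
      · refine Or.inr (Or.inl ⟨{c | c = (Sum.inl (C.used i a), false) ∨
          ∃ l, (¬ ∃ t, u.2 t = some (h u.1 l.1, l.2)) ∧ c = (Sum.inl (C.lit i a l), true)}, ?_,
          or_neg fun x => ?_⟩)
        · rintro _ (rfl | ⟨l, -, rfl⟩)
          · exact hlv i _ fun j hj => C.used_lt i a j hk hj
          · exact hlv i _ fun j hj => C.lit_lt i a l j hk hj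
        · simp only [F, Sum.elim_inl, Sum.elim_inr, a1, hk, true_and, orF, Set.mem_ofPred_eq]
          constructor
          · rintro ⟨h1, h2⟩ ⟨_, (rfl | ⟨l, hl, rfl⟩), h3⟩
            · simpa using h3.mp h1
            · exact hl (h2 l (h3.mpr rfl))
          · intro h1
            refine ⟨?_, fun l hl => ?_⟩
            · by_contra h2
              exact h1 ⟨_, Or.inl rfl, by simpa using h2⟩
            · by_contra h2
              exact h1 ⟨_, Or.inr ⟨l, h2, rfl⟩, by simpa using hl⟩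
      · exact Or.inl (Jun.of_const fun x y => by simp [F, a1, hk])
    · refine Or.inr (Or.inl ⟨{c | ∃ a, c = (Sum.inr (Sum.inl (i, u, a)), true)}, ?_,
        or_pos fun x => ?_⟩)
      · rintro _ ⟨a, rfl⟩; simp [lv]
      · simp only [orF, Set.mem_ofPred_eq]
        constructor
        · rintro ⟨a, ha⟩
          exact ⟨_, ⟨a, rfl⟩, iff_of_true ha rfl⟩
        · rintro ⟨_, ⟨a, rfl⟩, ha⟩
          exact ⟨a, ha.mpr rfl⟩
  · rintro ((u | i) | (⟨i, u, a⟩ | ⟨i, u⟩))
    · simp [lv]
    all_goals (have := hD i; simp only [lv, Sum.elim_inl, Sum.elim_inr]; omega)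
  · intro x
    simp only [F, Sum.elim_inl, hW4, SimpleGraph.CliqueFree, not_forall, not_not, HasClq,
      SimpleGraph.isNClique_iff]
    refine exists_congr fun Q => ⟨fun ⟨h1, h2⟩ => ⟨h2, fun u hu v hv huv => ?_⟩,
      fun ⟨h1, h2⟩ => ⟨fun u hu v hv huv => ?_, h1⟩⟩
    · exact ((SimpleGraph.fromEdgeSet_adj _).mp (h1 hu hv huv)).1
    · exact (SimpleGraph.fromEdgeSet_adj _).mpr ⟨h2 u hu v hv huv, huv⟩
  · simp only [Γ, Fintype.card_sum, Fintype.card_prod, Fintype.card_fin, hU]
    ring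

end Pool.Agent.Lib.MP_ddf912_lc.AC
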